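import Pool.Agent.H69.Ball.CZero

/-!
An abstract basis theorem: a banded factorization of the identity through `c₀`-sums of `ℓ∞ᵐ`
together with a complemented copy of `c₀` gives a Schauder basis.
-/

open Filter Topology Finset
open scoped ZeroAtInfty

namespace Pool.Agent.H69.Ball.Abs

open C0

/-- index space -/
abbrev Idx (m : ℕ → ℕ) := Σ j : ℕ, Fin (m j)

/-- a banded factorization of the identity of `X` -/
structure Banded (X : Type*) [NormedAddCommGroup X] [NormedSpace ℂ X] where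
  m : ℕ → ℕ
  S : ∀ j, (Fin (m j) → ℂ) →L[ℂ] X
  T : ∀ j, X →L[ℂ] (Fin (m j) → ℂ)
  C : ℝ
  C_nonneg : 0 ≤ C
  b : ℕ
  hS : ∀ j x, ‖S j x‖ ≤ C * ‖x‖
  hT : ∀ j f, ‖T j f‖ ≤ C * ‖f‖
  band : ∀ i j, (i + b ≤ j ∨ j + b ≤ i) → ∀ x, T i (S j x) = 0
  sum : ∀ f, Tendsto (fun N => ∑ j ∈ range N, S j (T j f)) atTop (𝓝 f)

namespace Banded

variable {X : Type*} [NormedAddCommGroup X] [NormedSpace ℂ X] (D : Banded X)

/-- the coordinate space -/
abbrev Z := C₀(Idx D.m, ℂ)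

/-- the `j`-th block of a coordinate vector -/
noncomputable def blk (j : ℕ) : D.Z →L[ℂ] (Fin (D.m j) → ℂ) :=
  ContinuousLinearMap.pi fun l => eval (⟨j, l⟩ : Idx D.m)

@[simp] lemma blk_apply (j : ℕ) (x : D.Z) (l : Fin (D.m j)) : D.blk j x l = x ⟨j, l⟩ := rfl

lemma norm_blk_le (j : ℕ) (x : D.Z) : ‖D.blk j x‖ ≤ ‖x‖ :=
  (pi_norm_le_iff_of_nonneg (norm_nonneg _)).mpr fun l => norm_apply_le x ⟨j, l⟩

lemma sigma_tendsto {m : ℕ → ℕ} (g : ∀ j, Fin (m j) → ℂ)
    (h : ∀ ε > 0, ∃ J, ∀ j ≥ J, ‖g j‖ < ε) :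
    Tendsto (fun i : Idx m => g i.1 i.2) cofinite (𝓝 0) := by
  rw [Metric.tendsto_nhds]
  intro ε hε
  rw [eventually_cofinite]
  obtain ⟨J, hJ⟩ := h ε hε
  have hfin : (⋃ j ∈ (Set.Iio J : Set ℕ), (Sigma.mk j '' (Set.univ : Set (Fin (m j)))
      : Set (Idx m))).Finite :=
    (Set.finite_Iio J).biUnion fun j _ => (Set.finite_univ).image _
  refine hfin.subset ?_
  rintro ⟨j, l⟩ hj
  simp only [Set.mem_ofPred_eq, dist_zero_right, not_lt] at hj
  have hjJ : j < J := by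
    by_contra hcon
    rw [not_lt] at hcon
    exact absurd (lt_of_le_of_lt (norm_le_pi_norm (g j) l) (hJ j hcon)) (not_lt.mpr hj)
  simp only [Set.mem_iUnion, Set.mem_image, Set.mem_univ, true_and]
  exact ⟨j, hjJ, l, rfl⟩

lemma blk_small (x : D.Z) : ∀ ε > 0, ∃ J, ∀ j ≥ J, ‖D.blk j x‖ < ε := by
  intro ε hε
  have h1 : {i : Idx D.m | ¬ dist (x i) 0 < ε / 2}.Finite := by
    have := (Metric.tendsto_nhds.mp (tendsto_cofinite x)) (ε / 2) (by positivity)
    rwa [eventually_cofinite] at this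
  obtain ⟨J, hJ⟩ := (h1.image Sigma.fst).bddAbove
  refine ⟨J + 1, fun j hj => ?_⟩
  refine lt_of_le_of_lt ((pi_norm_le_iff_of_nonneg (by positivity : (0:ℝ) ≤ ε / 2)).mpr
    fun l => ?_) (by linarith)
  by_contra hcon
  have h2 : (⟨j, l⟩ : Idx D.m) ∈ {i : Idx D.m | ¬ dist (x i) 0 < ε / 2} := by
    simp only [Set.mem_ofPred_eq, dist_zero_right]
    intro hlt
    exact hcon hlt.le
  have h3 : j ≤ J := hJ ⟨_, h2, rfl⟩
  omega

lemma T_small (f : X) : ∀ ε > 0, ∃ J, ∀ j ≥ J, ‖D.T j f‖ < ε := by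
  intro ε hε
  have hC := D.C_nonneg
  obtain ⟨N, hN⟩ := (Metric.tendsto_atTop.mp (D.sum f)) (ε / (D.C + 1)) (by positivity)
  have hN := hN N le_rfl
  refine ⟨N + D.b, fun i hi => ?_⟩
  have h1 : D.T i (∑ j ∈ range N, D.S j (D.T j f)) = 0 := by
    rw [map_sum]
    refine sum_eq_zero fun j hj => ?_
    rw [mem_range] at hj
    exact D.band i j (Or.inr (by omega)) _
  have h2 : D.T i f = - D.T i (∑ j ∈ range N, D.S j (D.T j f) - f) := by
    rw [map_sub, h1]; simp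
  rw [h2, norm_neg]
  rw [dist_eq_norm] at hN
  calc _ ≤ D.C * ‖∑ j ∈ range N, D.S j (D.T j f) - f‖ := D.hT _ _
    _ ≤ D.C * (ε / (D.C + 1)) := by gcongr
    _ < ε := by
      rw [mul_div_assoc', div_lt_iff₀ (by positivity)]
      nlinarith

/-- the coefficient map -/
noncomputable def tt : X →L[ℂ] D.Z :=
  mkCLM (X := X) (V := ℂ) (α := Idx D.m)
    (fun i => (ContinuousLinearMap.proj i.2).comp (D.T i.1)) D.C D.C_nonneg
    (fun i f => (norm_le_pi_norm (D.T i.1 f) i.2).trans (D.hT _ _))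
    (fun f => sigma_tendsto (fun j => D.T j f) (D.T_small f))

@[simp] lemma blk_tt (j : ℕ) (f : X) : D.blk j (D.tt f) = D.T j f := rfl

/-- partial sums of the quotient map -/
noncomputable def Q (N : ℕ) : D.Z →L[ℂ] X := ∑ j ∈ range N, (D.S j).comp (D.blk j)

lemma Q_apply (N : ℕ) (x : D.Z) : D.Q N x = ∑ j ∈ range N, D.S j (D.blk j x) := by
  unfold Q
  rw [_root_.sum_apply]; rfl

lemma Q_succ (N : ℕ) (x : D.Z) : D.Q (N + 1) x = D.Q N x + D.S N (D.blk N x) := by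
  rw [Q_apply, Q_apply, sum_range_succ]

lemma card_window (i b : ℕ) (s : Finset ℕ) :
    ((s.filter fun j => i < j + b ∧ j < i + b).card : ℝ) ≤ 2 * b := by
  have h1 : (s.filter fun j => i < j + b ∧ j < i + b) ⊆ Finset.Ico (i + 1 - b) (i + b) := by
    intro j hj
    rw [mem_filter] at hj
    rw [Finset.mem_Ico]
    omega
  have h2 := card_le_card h1
  rw [Nat.card_Ico] at h2
  have h3 : (s.filter fun j => i < j + b ∧ j < i + b).card ≤ 2 * b := by omega
  exact_mod_cast h3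

lemma norm_TQ_le (i N : ℕ) (x : D.Z) (M : ℝ) (hM : 0 ≤ M)
    (h : ∀ j, i < j + D.b → j < i + D.b → ‖D.blk j x‖ ≤ M) :
    ‖D.T i (D.Q N x)‖ ≤ 2 * D.b * (D.C * (D.C * M)) := by
  have hC := D.C_nonneg
  rw [Q_apply, map_sum]
  have h1 : ∑ j ∈ range N, D.T i (D.S j (D.blk j x))
      = ∑ j ∈ (range N).filter (fun j => i < j + D.b ∧ j < i + D.b),
        D.T i (D.S j (D.blk j x)) := by
    rw [sum_filter_of_ne]
    intro j _ hne
    by_contra hcon
    apply hne
    apply D.band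
    omega
  rw [h1]
  refine (norm_sum_le _ _).trans ?_
  have h2 : ∀ j ∈ (range N).filter (fun j => i < j + D.b ∧ j < i + D.b),
      ‖D.T i (D.S j (D.blk j x))‖ ≤ D.C * (D.C * M) := by
    intro j hj
    rw [mem_filter] at hj
    refine (D.hT _ _).trans ?_
    gcongr
    refine (D.hS _ _).trans ?_
    gcongr
    exact h j hj.2.1 hj.2.2
  refine (sum_le_card_nsmul _ _ _ h2).trans ?_
  rw [nsmul_eq_mul]
  gcongr
  exact card_window _ _ _

lemma TQ_eq (i N : ℕ) (hN : i + D.b ≤ N) (x : D.Z) :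
    D.T i (D.Q N x) = D.T i (D.Q (i + D.b) x) := by
  induction N, hN using Nat.le_induction with
  | base => rfl
  | succ N hN ih =>
    rw [Q_succ, map_add, ih, D.band i N (Or.inl hN), add_zero]

lemma TQ_zero (i N : ℕ) (hN : N + D.b ≤ i + 1) (x : D.Z) : D.T i (D.Q N x) = 0 := by
  rw [Q_apply, map_sum]
  refine sum_eq_zero fun j hj => ?_
  rw [mem_range] at hj
  exact D.band i j (Or.inr (by omega)) _

/-- the projection `P` on `c₀` -/
noncomputable def P : D.Z →L[ℂ] D.Z :=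
  mkCLM (X := D.Z) (V := ℂ) (α := Idx D.m)
    (fun i => (ContinuousLinearMap.proj i.2).comp ((D.T i.1).comp (D.Q (i.1 + D.b))))
    (2 * D.b * (D.C * D.C)) (by have := D.C_nonneg; positivity)
    (fun i x => by
      refine (norm_le_pi_norm (D.T i.1 (D.Q (i.1 + D.b) x)) i.2).trans ?_
      refine (D.norm_TQ_le i.1 _ x ‖x‖ (norm_nonneg _) fun j _ _ => D.norm_blk_le j x).trans ?_
      exact le_of_eq (by ring))
    (fun x => sigma_tendsto (fun j => D.T j (D.Q (j + D.b) x)) (by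
      intro ε hε
      have hC := D.C_nonneg
      obtain ⟨J, hJ⟩ := D.blk_small x (ε / (2 * D.b * (D.C * D.C) + 1)) (by positivity)
      refine ⟨J + D.b, fun i hi => ?_⟩
      refine lt_of_le_of_lt (D.norm_TQ_le i _ x (ε / (2 * D.b * (D.C * D.C) + 1)) (by positivity)
        fun j hj1 hj2 => (hJ j (by omega)).le) ?_
      have h1 : 2 * (D.b : ℝ) * (D.C * (D.C * (ε / (2 * D.b * (D.C * D.C) + 1))))
          = (2 * D.b * (D.C * D.C)) * ε / (2 * D.b * (D.C * D.C) + 1) := by ring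
      rw [h1, div_lt_iff₀ (by positivity)]
      nlinarith [hε]))

lemma blk_P (i : ℕ) (x : D.Z) : D.blk i (D.P x) = D.T i (D.Q (i + D.b) x) := rfl

lemma ext_blk {x y : D.Z} (h : ∀ i, D.blk i x = D.blk i y) : x = y := by
  ext ⟨j, l⟩
  exact congrFun (h j) l

lemma Q_tt (N : ℕ) (f : X) : D.Q N (D.tt f) = ∑ j ∈ range N, D.S j (D.T j f) := by
  rw [Q_apply]; rfl

lemma TQ_tt (i N : ℕ) (hN : i + D.b ≤ N) (f : X) : D.T i (D.Q N (D.tt f)) = D.T i f := by
  have h1 : Tendsto (fun N => D.T i (D.Q N (D.tt f))) atTop (𝓝 (D.T i f)) := by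
    simp only [Q_tt]
    exact ((D.T i).continuous.tendsto f).comp (D.sum f)
  have h2 : Tendsto (fun N => D.T i (D.Q N (D.tt f))) atTop (𝓝 (D.T i (D.Q (i + D.b) (D.tt f)))) := by
    apply tendsto_const_nhds.congr'
    filter_upwards [eventually_ge_atTop (i + D.b)] with N hN
    exact (D.TQ_eq i N hN _).symm
  rw [D.TQ_eq i N hN]
  exact tendsto_nhds_unique h2 h1

lemma P_tt (f : X) : D.P (D.tt f) = D.tt f := by
  apply D.ext_blk
  intro i
  rw [blk_P, blk_tt, D.TQ_tt i _ le_rfl]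

lemma P_P (x : D.Z) : D.P (D.P x) = D.P x := by
  apply D.ext_blk
  intro i
  rw [blk_P, blk_P]
  have h1 : D.Q (i + D.b) (D.P x) = D.Q (i + D.b) (D.tt (D.Q (i + D.b + D.b) x)) := by
    rw [Q_apply, Q_tt]
    refine sum_congr rfl fun j hj => ?_
    rw [mem_range] at hj
    rw [blk_P, D.TQ_eq j (i + D.b + D.b) (by omega)]
  rw [h1, D.TQ_tt i _ le_rfl, D.TQ_eq i (i + D.b + D.b) (by omega)]

lemma Q_tendsto_zero (k : D.Z) (hk : D.P k = 0) : Tendsto (fun N => D.Q N k) atTop (𝓝 0) := by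
  rw [Metric.tendsto_atTop]
  intro ε hε
  have hC := D.C_nonneg
  set A : ℝ := 2 * D.b * (D.C * (2 * D.b * (D.C * D.C))) with hA
  have hA0 : 0 ≤ A := by positivity
  obtain ⟨J, hJ⟩ := D.blk_small k (ε / (A + 1)) (by positivity)
  refine ⟨J + 2 * D.b, fun N hN => ?_⟩
  rw [dist_zero_right]
  set y := D.Q N k with hy
  set M := ε / (A + 1) with hM
  have hM0 : 0 ≤ M := by positivity
  have h1 : ∀ j, j + D.b ≤ N → D.T j y = 0 := by
    intro j hj
    rw [hy, D.TQ_eq j N hj, ← blk_P, hk]; simp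
  have h2 : ∀ j, N + D.b ≤ j → D.T j y = 0 := fun j hj => D.TQ_zero j N (by omega) k
  have h3 : ∀ j, N < j + D.b → ‖D.T j y‖ ≤ 2 * D.b * (D.C * (D.C * M)) := by
    intro j hj
    exact D.norm_TQ_le j N k M hM0 fun l hl1 hl2 => (hJ l (by omega)).le
  have h4 : ∀ L, ‖∑ j ∈ range L, D.S j (D.T j y)‖ ≤ A * M := by
    intro L
    have h5 : ∑ j ∈ range L, D.S j (D.T j y)
        = ∑ j ∈ (range L).filter (fun j => N < j + D.b ∧ j < N + D.b), D.S j (D.T j y) := by
      rw [sum_filter_of_ne]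
      intro j _ hne
      by_contra hcon
      apply hne
      rcases Nat.lt_or_ge N (j + D.b) with h | h
      · rw [h2 j (by omega), map_zero]
      · rw [h1 j h, map_zero]
    rw [h5]
    refine (norm_sum_le _ _).trans ?_
    have h6 : ∀ j ∈ (range L).filter (fun j => N < j + D.b ∧ j < N + D.b),
        ‖D.S j (D.T j y)‖ ≤ D.C * (2 * D.b * (D.C * (D.C * M))) := by
      intro j hj
      rw [mem_filter] at hj
      refine (D.hS _ _).trans ?_
      gcongr
      exact h3 j hj.2.1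
    refine (sum_le_card_nsmul _ _ _ h6).trans ?_
    rw [nsmul_eq_mul]
    have h7 := card_window N D.b (range L)
    calc _ ≤ (2 * D.b : ℝ) * (D.C * (2 * D.b * (D.C * (D.C * M)))) := by gcongr
      _ = A * M := by rw [hA]; ring
  have h8 : ‖y‖ ≤ A * M := by
    have h9 := (continuous_norm.tendsto y).comp (D.sum y)
    exact le_of_tendsto h9 (Eventually.of_forall h4)
  refine lt_of_le_of_lt h8 ?_
  rw [hM, mul_div_assoc', div_lt_iff₀ (by positivity)]
  nlinarith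

end Banded

end Pool.Agent.H69.Ball.Abs
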