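import Mathlib

/-!
The ball algebra as a closed subspace of `C(closed ball, ℂ)` (MP_52fb39_an).
-/

open Metric Filter Topology

namespace Pool.Agent.H69.Ball

/-- `ℂⁿ` -/
abbrev E (n : ℕ) := EuclideanSpace ℂ (Fin n)

/-- the closed unit ball as a type -/
abbrev K (n : ℕ) := closedBall (0 : E n) 1

/-- zero extension of a function on the closed ball -/
noncomputable def ext {n : ℕ} (f : C(K n, ℂ)) (z : E n) : ℂ :=
  open Classical in if h : z ∈ closedBall (0 : E n) 1 then f ⟨z, h⟩ else 0

lemma ext_apply {n : ℕ} (f : C(K n, ℂ)) (z : E n) (h : z ∈ closedBall (0 : E n) 1) :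
    ext f z = f ⟨z, h⟩ := by
  unfold ext; rw [dif_pos h]

lemma ext_coe {n : ℕ} (f : C(K n, ℂ)) (z : K n) : ext f z = f z := ext_apply f z z.2

lemma norm_ext_le {n : ℕ} (f : C(K n, ℂ)) (z : E n) : ‖ext f z‖ ≤ ‖f‖ := by
  unfold ext
  split_ifs with h
  · exact f.norm_coe_le_norm _
  · simp

lemma ext_add {n : ℕ} (f g : C(K n, ℂ)) : ext (f + g) = ext f + ext g := by
  funext z
  simp only [ext, Pi.add_apply]
  split_ifs <;> simp

lemma ext_smul {n : ℕ} (c : ℂ) (f : C(K n, ℂ)) : ext (c • f) = c • ext f := by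
  funext z
  simp only [ext, Pi.smul_apply]
  split_ifs <;> simp

lemma ext_sub {n : ℕ} (f g : C(K n, ℂ)) : ext (f - g) = ext f - ext g := by
  funext z
  simp only [ext, Pi.sub_apply]
  split_ifs <;> simp

lemma continuousOn_ext {n : ℕ} (f : C(K n, ℂ)) :
    ContinuousOn (ext f) (closedBall (0 : E n) 1) := by
  rw [continuousOn_iff_continuous_domRestrict]
  convert f.continuous using 1
  funext z
  exact ext_coe f z

/-- the ball algebra -/
noncomputable def ballAlg (n : ℕ) : Submodule ℂ C(K n, ℂ) where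
  carrier := {f | DifferentiableOn ℂ (ext f) (ball (0 : E n) 1)}
  add_mem' := by
    intro f g hf hg
    simp only [Set.mem_ofPred_eq] at hf hg ⊢
    rw [ext_add]; exact hf.add hg
  zero_mem' := by
    simp only [Set.mem_ofPred_eq]
    have : ext (0 : C(K n, ℂ)) = fun _ => 0 := by
      funext z; simp [ext]
    rw [this]; exact differentiableOn_const _
  smul_mem' := by
    intro c f hf
    simp only [Set.mem_ofPred_eq] at hf ⊢
    rw [ext_smul]; exact hf.const_smul c

lemma mem_ballAlg {n : ℕ} (f : C(K n, ℂ)) :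
    f ∈ ballAlg n ↔ DifferentiableOn ℂ (ext f) (ball (0 : E n) 1) := Iff.rfl

end Pool.Agent.H69.Ball
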