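import Pool.Agent.H69.Ball.Abstract

/-!
The Schauder basis from a banded factorization and a complemented copy of `c₀`.
-/

open Filter Topology Finset
open scoped ZeroAtInfty

namespace Pool.Agent.H69.Ball.Abs

open C0

section ops

variable {V : Type*} [NormedAddCommGroup V] [NormedSpace ℂ V]

/-- amplification -/
noncomputable def amp (A : V →L[ℂ] V) : C₀(ℕ, V) →L[ℂ] C₀(ℕ, V) :=
  mkCLM (X := C₀(ℕ, V)) (V := V) (α := ℕ) (fun a => A.comp (eval a)) ‖A‖ (norm_nonneg _)
    (fun a u => (A.le_opNorm _).trans (by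
      have := norm_apply_le u a
      gcongr
      exact this))
    (fun u => by
      have h := (A.continuous.tendsto 0).comp (tendsto_cofinite u)
      rw [map_zero] at h
      exact h)

@[simp] lemma amp_apply (A : V →L[ℂ] V) (u : C₀(ℕ, V)) (a : ℕ) : amp A u a = A (u a) := rfl

/-- left shift -/
noncomputable def shL : C₀(ℕ, V) →L[ℂ] C₀(ℕ, V) :=
  mkCLM (X := C₀(ℕ, V)) (V := V) (α := ℕ) (fun a => eval (a + 1)) 1 zero_le_one
    (fun a u => by rw [one_mul]; exact norm_apply_le u (a + 1))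
    (fun u => (tendsto_cofinite u).comp (add_left_injective 1).tendsto_cofinite)

@[simp] lemma shL_apply (u : C₀(ℕ, V)) (a : ℕ) : shL u a = u (a + 1) := rfl

/-- the coordinates of the right shift -/
noncomputable def shRc : ℕ → (C₀(ℕ, V) →L[ℂ] V)
  | 0 => 0
  | a + 1 => eval a

/-- right shift -/
noncomputable def shR : C₀(ℕ, V) →L[ℂ] C₀(ℕ, V) :=
  mkCLM (X := C₀(ℕ, V)) (V := V) (α := ℕ) shRc 1 zero_le_one
    (fun a u => by
      cases a with
      | zero => simp [shRc]
      | succ a => rw [one_mul]; exact norm_apply_le u a)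
    (fun u => by
      rw [Nat.cofinite_eq_atTop]
      rw [← tendsto_add_atTop_iff_nat 1]
      have := tendsto_cofinite u
      rw [Nat.cofinite_eq_atTop] at this
      exact this)

@[simp] lemma shR_zero (u : C₀(ℕ, V)) : shR u 0 = 0 := rfl
@[simp] lemma shR_succ (u : C₀(ℕ, V)) (a : ℕ) : shR u (a + 1) = u a := rfl

/-- the coordinates of the first embedding -/
noncomputable def j0c : ℕ → (V →L[ℂ] V)
  | 0 => ContinuousLinearMap.id ℂ V
  | _ + 1 => 0

/-- the embedding as the first coordinate -/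
noncomputable def j0 : V →L[ℂ] C₀(ℕ, V) :=
  mkCLM (X := V) (V := V) (α := ℕ) j0c 1 zero_le_one
    (fun a u => by
      cases a with
      | zero => simp [j0c]
      | succ a => simp [j0c])
    (fun u => by
      rw [Nat.cofinite_eq_atTop]
      rw [← tendsto_add_atTop_iff_nat 1]
      exact tendsto_const_nhds)

@[simp] lemma j0_zero (u : V) : j0 u 0 = u := rfl
@[simp] lemma j0_succ (u : V) (a : ℕ) : j0 u (a + 1) = 0 := rfl

/-- Eilenberg swindle for a projection `P` of a Banach space `V`. -/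
theorem exists_swindle (P e : V →L[ℂ] V) (hPP : ∀ x, P (P x) = P x) (hPe : ∀ x, P (e x) = 0)
    (heP : ∀ x, e (P x) = 0) (hee : ∀ x, e (e x) = e x) (hadd : ∀ x, P x + e x = x) :
    ∃ (Vm Wm : C₀(ℕ, V) →L[ℂ] C₀(ℕ, V)) (jj : V →L[ℂ] C₀(ℕ, V)) (ev : C₀(ℕ, V) →L[ℂ] V),
      (∀ u, jj (e (ev u)) + Wm (Vm u) = u) ∧ (∀ k, P k = 0 → ∀ v, Vm (jj k + Wm v) = v) ∧
      (∀ k v, ev (jj k + Wm v) = k + P (ev v)) := by
  obtain ⟨Vm, hV⟩ : ∃ Vm : C₀(ℕ, V) →L[ℂ] C₀(ℕ, V), ∀ u a, Vm u a = P (u a) + e (u (a + 1)) :=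
    ⟨amp P + shL.comp (amp e), fun u a => rfl⟩
  obtain ⟨Wm, hW0, hW1⟩ : ∃ Wm : C₀(ℕ, V) →L[ℂ] C₀(ℕ, V), (∀ u, Wm u 0 = P (u 0)) ∧
      ∀ u a, Wm u (a + 1) = P (u (a + 1)) + e (u a) :=
    ⟨amp P + shR.comp (amp e), fun u => by
      change P (u 0) + 0 = _
      rw [add_zero], fun u a => rfl⟩
  refine ⟨Vm, Wm, j0, eval 0, ?_, ?_, ?_⟩
  · intro u
    ext1 a
    rw [ZeroAtInftyContinuousMap.add_apply]
    cases a with
    | zero =>
      rw [j0_zero, eval_apply, hW0, hV, map_add P, hPP, hPe, add_zero, add_comm, hadd]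
    | succ a =>
      rw [j0_succ, hW1, hV, hV, map_add P, map_add e, hPP, hPe, heP, hee, add_zero, zero_add,
        zero_add, hadd]
  · intro k hk v
    ext1 a
    rw [hV, ZeroAtInftyContinuousMap.add_apply, ZeroAtInftyContinuousMap.add_apply, j0_succ,
      hW1, zero_add, map_add e, map_add P, heP, hee, zero_add]
    cases a with
    | zero => rw [j0_zero, hW0, hk, hPP, zero_add, hadd]
    | succ a => rw [j0_succ, hW1, map_zero, zero_add, map_add P, hPP, hPe, add_zero, hadd]
  · intro k v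
    rw [eval_apply, ZeroAtInftyContinuousMap.add_apply, j0_zero, hW0, eval_apply]

end ops

/-- a block-monotone enumeration of the index space -/
theorem exists_enum (m : ℕ → ℕ) (hm : ∀ j, 0 < m j) :
    ∃ en : ℕ ≃ Idx m, ∀ a b, a ≤ b → (en a).1 ≤ (en b).1 := by
  classical
  let φ : Idx m → ℕ := fun i => (∑ j ∈ range i.1, m j) + i.2
  have hlt : ∀ i i' : Idx m, i.1 < i'.1 → φ i < φ i' := by
    intro i i' h
    have h1 : (∑ j ∈ range (i.1 + 1), m j) ≤ ∑ j ∈ range i'.1, m j :=
      sum_le_sum_of_subset (range_mono h)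
    rw [sum_range_succ] at h1
    have h2 := i.2.2
    simp only [φ]
    omega
  have hinj : Function.Injective φ := by
    intro i i' h
    rcases lt_trichotomy i.1 i'.1 with h1 | h1 | h1
    · exact absurd h (hlt i i' h1).ne
    · obtain ⟨j, l⟩ := i
      obtain ⟨j', l'⟩ := i'
      simp only at h1
      subst h1
      simp only [φ, add_right_inj] at h
      rw [Fin.ext h]
    · exact absurd h.symm (hlt i' i h1).ne
  have hinf : (Set.range φ).Infinite := by
    have : Infinite (Idx m) := by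
      refine Infinite.of_injective (fun j : ℕ => (⟨j, ⟨0, hm j⟩⟩ : Idx m)) fun a b h => ?_
      exact congrArg Sigma.fst h
    exact Set.infinite_range_of_injective hinj
  have : Infinite (Set.range φ) := hinf.to_subtype
  let o := Nat.Subtype.orderIsoOfNat (Set.range φ)
  let q := Equiv.ofInjective φ hinj
  refine ⟨o.toEquiv.trans q.symm, fun a b hab => ?_⟩
  by_contra hcon
  rw [not_le] at hcon
  have h1 := hlt _ _ hcon
  have h2 : ∀ c, φ ((o.toEquiv.trans q.symm) c) = (o c : ℕ) := by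
    intro c
    have : q (q.symm (o c)) = o c := q.apply_symm_apply _
    exact congrArg Subtype.val this
  rw [h2, h2] at h1
  have h3 : o a ≤ o b := o.monotone hab
  exact absurd h1 (not_lt.mpr h3)

namespace Banded

variable {X : Type*} [NormedAddCommGroup X] [NormedSpace ℂ X] (D : Banded X)

/-- the complementary projection -/
noncomputable def e : D.Z →L[ℂ] D.Z := ContinuousLinearMap.id ℂ D.Z - D.P

lemma e_apply (x : D.Z) : D.e x = x - D.P x := rfl
lemma P_e (x : D.Z) : D.P (D.e x) = 0 := by rw [e_apply, map_sub, P_P, sub_self]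
lemma e_P (x : D.Z) : D.e (D.P x) = 0 := by rw [e_apply, P_P, sub_self]
lemma e_e (x : D.Z) : D.e (D.e x) = D.e x := by rw [e_apply (x := D.e x), P_e, sub_zero]
lemma e_tt (f : X) : D.e (D.tt f) = 0 := by rw [e_apply, P_tt, sub_self]
lemma P_add_e (x : D.Z) : D.P x + D.e x = x := by rw [e_apply]; abel

/-- the unit vectors -/
noncomputable def dl (i : Idx D.m) : D.Z :=
  open Classical in mk' (fun k => if k = i then 1 else 0) (by
    have : (fun k : Idx D.m => if k = i then (1 : ℂ) else 0) =ᶠ[cofinite] fun _ => 0 := by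
      rw [Filter.EventuallyEq, eventually_cofinite]
      refine (Set.finite_singleton i).subset fun k hk => ?_
      by_contra hcon
      simp only [Set.mem_singleton_iff] at hcon
      simp [hcon] at hk
    exact tendsto_const_nhds.congr' this.symm)

lemma dl_apply_self (i : Idx D.m) : D.dl i i = 1 := by simp [dl]
lemma dl_apply_ne (i k : Idx D.m) (h : k ≠ i) : D.dl i k = 0 := by simp [dl, h]

/-- the vectors `S_j δ_l` -/
noncomputable def sv (i : Idx D.m) : X := open Classical in D.S i.1 (Pi.single i.2 1)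

lemma blk_dl (i : Idx D.m) : D.blk i.1 (D.dl i) = open Classical in Pi.single i.2 1 := by
  classical
  funext l
  rw [blk_apply]
  by_cases h : l = i.2
  · subst h
    rw [show (⟨i.1, i.2⟩ : Idx D.m) = i from rfl, dl_apply_self]
    simp
  · rw [dl_apply_ne]
    · simp [h]
    · intro h2
      apply h
      obtain ⟨j, k⟩ := i
      simpa using h2

lemma blk_dl_ne (i : Idx D.m) (j : ℕ) (h : j ≠ i.1) : D.blk j (D.dl i) = 0 := by
  funext l
  rw [blk_apply, dl_apply_ne]
  · rfl
  · intro h2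
    apply h
    rw [← h2]

lemma Q_dl (i : Idx D.m) (N : ℕ) : D.Q N (D.dl i) = if i.1 < N then D.sv i else 0 := by
  classical
  rw [Q_apply]
  split_ifs with h
  · rw [sum_eq_single i.1]
    · rw [blk_dl]; rfl
    · intro j _ hj
      rw [blk_dl_ne _ _ _ hj, map_zero]
    · intro hn
      exact absurd (mem_range.mpr h) hn
  · refine sum_eq_zero fun j hj => ?_
    rw [mem_range] at hj
    rw [blk_dl_ne _ _ _ (by omega), map_zero]

lemma P_dl (i : Idx D.m) : D.P (D.dl i) = D.tt (D.sv i) := by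
  apply D.ext_blk
  intro j
  rw [blk_P, blk_tt, Q_dl]
  split_ifs with h
  · rfl
  · rw [map_zero]
    exact (D.band j i.1 (Or.inl (by omega)) _).symm

section main

variable {U : Type*} [NormedAddCommGroup U] [NormedSpace ℂ U]

/-- the data of the swindle and of the complemented copy of `c₀(Z)` in `X` -/
structure Swindle (D : Banded X) (U : Type*) [NormedAddCommGroup U] [NormedSpace ℂ U] where
  Vm : U →L[ℂ] U
  Wm : U →L[ℂ] U
  jj : D.Z →L[ℂ] U
  ev : U →L[ℂ] D.Z
  W_V : ∀ u, jj (D.e (ev u)) + Wm (Vm u) = u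
  V_W : ∀ k, D.P k = 0 → ∀ v, Vm (jj k + Wm v) = v
  ev_W : ∀ k v, ev (jj k + Wm v) = k + D.P (ev v)
  ι : U →L[ℂ] X
  r : X →L[ℂ] U
  hri : ∀ u, r (ι u) = u

variable {D} (s : Swindle D U)

/-- the corrected element -/
noncomputable def fp : X →L[ℂ] X :=
  ContinuousLinearMap.id ℂ X - s.ι.comp (s.r - s.Vm.comp s.r)

lemma fp_apply (f : X) : fp s f = f - s.ι (s.r f - s.Vm (s.r f)) := rfl

/-- the coefficient map -/
noncomputable def cf : X →L[ℂ] D.Z :=
  D.tt.comp (fp s) + D.e.comp (s.ev.comp s.r)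

lemma cf_apply (f : X) : cf s f = D.tt (fp s f) + D.e (s.ev (s.r f)) := rfl

/-- the reconstruction map, first part -/
noncomputable def psi : X →L[ℂ] X :=
  ContinuousLinearMap.id ℂ X - s.ι.comp s.r + s.ι.comp (s.Wm.comp s.r)

lemma psi_apply (g : X) : psi s g = g - s.ι (s.r g) + s.ι (s.Wm (s.r g)) := rfl

/-- the basis vectors -/
noncomputable def bas (i : Idx D.m) : X := psi s (D.sv i) + s.ι (s.jj (D.e (D.dl i)))

lemma r_fp (f : X) : s.r (fp s f) = s.Vm (s.r f) := by
  rw [fp_apply, map_sub, s.hri]; abel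

lemma psi_fp (f : X) : psi s (fp s f) + s.ι (s.jj (D.e (s.ev (s.r f)))) = f := by
  have h1 := s.W_V (s.r f)
  rw [psi_apply, r_fp]
  have h2 : s.ι (s.jj (D.e (s.ev (s.r f)))) + s.ι (s.Wm (s.Vm (s.r f))) = s.ι (s.r f) := by
    rw [← map_add, h1]
  rw [fp_apply, map_sub]
  calc f - (s.ι (s.r f) - s.ι (s.Vm (s.r f))) - s.ι (s.Vm (s.r f)) + s.ι (s.Wm (s.Vm (s.r f)))
        + s.ι (s.jj (D.e (s.ev (s.r f))))
      = f - s.ι (s.r f) + (s.ι (s.jj (D.e (s.ev (s.r f)))) + s.ι (s.Wm (s.Vm (s.r f)))) := by abel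
    _ = f := by rw [h2]; abel

lemma cf_bas (i : Idx D.m) : cf s (bas s i) = D.dl i := by
  set g := D.sv i with hg
  set k := D.e (D.dl i) with hk
  set f := bas s i with hf
  have hPk : D.P k = 0 := D.P_e _
  have hf2 : f = g - s.ι (s.r g) + s.ι (s.jj k + s.Wm (s.r g)) := by
    rw [hf, bas, psi_apply, map_add]; abel
  have hrf : s.r f = s.jj k + s.Wm (s.r g) := by
    rw [hf2, map_add, map_sub, s.hri, s.hri]; abel
  have hV : s.Vm (s.r f) = s.r g := by rw [hrf, s.V_W k hPk]
  have hfp : fp s f = g := by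
    rw [fp_apply, hV, hrf, map_sub, hf2]; abel
  rw [cf_apply, hfp, hrf, s.ev_W, map_add, e_P, add_zero, hk, e_e, hg, ← P_dl, P_add_e]

lemma Q_cf (f : X) : Tendsto (fun N => D.Q N (cf s f)) atTop (𝓝 (fp s f)) := by
  have h1 : Tendsto (fun N => D.Q N (D.tt (fp s f))) atTop (𝓝 (fp s f)) := by
    simp only [Q_tt]
    exact D.sum _
  have h2 := D.Q_tendsto_zero (D.e (s.ev (s.r f))) (D.P_e _)
  have h3 := h1.add h2
  rw [add_zero] at h3
  refine h3.congr fun N => ?_
  rw [cf_apply, map_add]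

/-- truncation of a coordinate vector -/
lemma trunc_apply (en : ℕ ≃ Idx D.m) (c : ℕ → ℂ) (N : ℕ) (i : Idx D.m) :
    (∑ a ∈ range N, c a • D.dl (en a) : D.Z) i = if en.symm i < N then c (en.symm i) else 0 := by
  have h1 : (∑ a ∈ range N, c a • D.dl (en a) : D.Z) i
      = ∑ a ∈ range N, c a * D.dl (en a) i := by
    have := map_sum (eval i : D.Z →L[ℂ] ℂ) (fun a => c a • D.dl (en a)) (range N)
    rw [eval_apply] at this
    rw [this]
    refine sum_congr rfl fun a _ => ?_
    rw [map_smul, eval_apply, smul_eq_mul]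
  rw [h1]
  split_ifs with h
  · rw [sum_eq_single (en.symm i)]
    · rw [Equiv.apply_symm_apply, dl_apply_self, mul_one]
    · intro a _ ha
      rw [dl_apply_ne, mul_zero]
      intro h2
      apply ha
      rw [h2, Equiv.symm_apply_apply]
    · intro hn
      exact absurd (mem_range.mpr h) hn
  · refine sum_eq_zero fun a ha => ?_
    rw [mem_range] at ha
    rw [dl_apply_ne, mul_zero]
    intro h2
    apply h
    rw [h2, Equiv.symm_apply_apply]
    exact ha

lemma trunc_tendsto (en : ℕ ≃ Idx D.m) (x : D.Z) :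
    Tendsto (fun N => ∑ a ∈ range N, x (en a) • D.dl (en a)) atTop (𝓝 x) := by
  rw [Metric.tendsto_atTop]
  intro ε hε
  have h1 : {i : Idx D.m | ¬ dist (x i) 0 < ε / 2}.Finite := by
    have := (Metric.tendsto_nhds.mp (tendsto_cofinite x)) (ε / 2) (by positivity)
    rwa [eventually_cofinite] at this
  obtain ⟨J, hJ⟩ := (h1.image en.symm).bddAbove
  refine ⟨J + 1, fun N hN => ?_⟩
  rw [dist_eq_norm]
  refine lt_of_le_of_lt (norm_le (C := ε / 2) _ (by positivity) fun i => ?_) (by linarith)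
  rw [ZeroAtInftyContinuousMap.sub_apply]
  rw [D.trunc_apply en (fun a => x (en a)) N i]
  split_ifs with h
  · simp only [Equiv.apply_symm_apply, sub_self, norm_zero]; positivity
  · rw [zero_sub, norm_neg]
    by_contra hcon
    have h2 : i ∈ {i : Idx D.m | ¬ dist (x i) 0 < ε / 2} := by
      simp only [Set.mem_ofPred_eq, dist_zero_right]
      intro hlt
      exact hcon hlt.le
    have h3 : en.symm i ≤ J := hJ ⟨_, h2, rfl⟩
    omega

lemma sum_sv_tendsto (en : ℕ ≃ Idx D.m) (hen : ∀ a b, a ≤ b → (en a).1 ≤ (en b).1)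
    (hm : ∀ j, 0 < D.m j) (x : D.Z) (g : X) (hx : Tendsto (fun N => D.Q N x) atTop (𝓝 g)) :
    Tendsto (fun N => ∑ a ∈ range N, x (en a) • D.sv (en a)) atTop (𝓝 g) := by
  have hJ : Tendsto (fun N => (en N).1) atTop atTop := by
    apply tendsto_atTop_atTop_of_monotone (fun a b h => hen a b h)
    intro j
    refine ⟨en.symm ⟨j, ⟨0, hm j⟩⟩, ?_⟩
    rw [Equiv.apply_symm_apply]
  have h1 : ∀ N, ∑ a ∈ range N, x (en a) • D.sv (en a)
      = D.Q (en N).1 x
        + D.S (en N).1 (D.blk (en N).1 (∑ a ∈ range N, x (en a) • D.dl (en a))) := by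
    intro N
    set y : D.Z := ∑ a ∈ range N, x (en a) • D.dl (en a) with hy
    have h2 : ∑ a ∈ range N, x (en a) • D.sv (en a) = D.Q ((en N).1 + 1) y := by
      rw [hy, map_sum]
      refine sum_congr rfl fun a ha => ?_
      rw [mem_range] at ha
      rw [map_smul, Q_dl, if_pos (Nat.lt_succ_of_le (hen a N ha.le))]
    rw [h2, Q_succ]
    congr 1
    rw [Q_apply, Q_apply]
    refine sum_congr rfl fun j hj => ?_
    rw [mem_range] at hj
    congr 1
    funext l
    rw [blk_apply, blk_apply, hy, D.trunc_apply en (fun a => x (en a)) N]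
    rw [if_pos, Equiv.apply_symm_apply]
    by_contra hcon
    rw [not_lt] at hcon
    have := hen _ _ hcon
    rw [Equiv.apply_symm_apply] at this
    simp only at this
    omega
  have h3 : Tendsto (fun N => D.S (en N).1
      (D.blk (en N).1 (∑ a ∈ range N, x (en a) • D.dl (en a)))) atTop (𝓝 0) := by
    have hC := D.C_nonneg
    rw [Metric.tendsto_atTop]
    intro ε hε
    obtain ⟨J, hJ2⟩ := D.blk_small x (ε / (D.C + 1)) (by positivity)
    obtain ⟨N0, hN0⟩ := (tendsto_atTop_atTop.mp hJ) J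
    refine ⟨N0, fun N hN => ?_⟩
    rw [dist_zero_right]
    have h4 : ‖D.blk (en N).1 (∑ a ∈ range N, x (en a) • D.dl (en a))‖ ≤ ‖D.blk (en N).1 x‖ := by
      refine (pi_norm_le_iff_of_nonneg (norm_nonneg _)).mpr fun l => ?_
      rw [blk_apply, D.trunc_apply en (fun a => x (en a)) N]
      split_ifs with h
      · rw [Equiv.apply_symm_apply]
        exact norm_le_pi_norm (D.blk (en N).1 x) l
      · rw [norm_zero]; exact norm_nonneg _
    calc _ ≤ D.C * ‖D.blk (en N).1 (∑ a ∈ range N, x (en a) • D.dl (en a))‖ := D.hS _ _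
      _ ≤ D.C * (ε / (D.C + 1)) := by
        gcongr
        exact h4.trans (hJ2 _ (hN0 N hN)).le
      _ < ε := by
        rw [mul_div_assoc', div_lt_iff₀ (by positivity)]
        nlinarith
  have h5 := (hx.comp hJ).add h3
  rw [add_zero] at h5
  exact h5.congr fun N => (h1 N).symm

include s in
theorem exists_basis_aux (hm : ∀ j, 0 < D.m j) :
    ∃ e : ℕ → X, ∀ f, ∃! a : ℕ → ℂ,
      Tendsto (fun N => ∑ i ∈ range N, a i • e i) atTop (𝓝 f) := by
  obtain ⟨en, hen⟩ := exists_enum D.m hm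
  refine ⟨fun a => bas s (en a), fun f => ?_⟩
  refine ⟨fun a => cf s f (en a), ?_, ?_⟩
  · set x := cf s f with hx
    have h1 := sum_sv_tendsto (D := D) en hen hm x _ (Q_cf s f)
    have h2 := trunc_tendsto (D := D) en x
    have h3 := ((psi s).continuous.tendsto _).comp h1
    have h4 := (((s.ι.comp s.jj).comp D.e).continuous.tendsto _).comp h2
    have h5 := h3.add h4
    have h6 : psi s (fp s f) + ((s.ι.comp s.jj).comp D.e) x = f := by
      have h7 : D.e x = D.e (s.ev (s.r f)) := by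
        rw [hx, cf_apply, map_add, e_tt, zero_add, e_e]
      change psi s (fp s f) + s.ι (s.jj (D.e x)) = f
      rw [h7]
      exact psi_fp s f
    rw [h6] at h5
    refine h5.congr fun N => ?_
    simp only [Function.comp_apply, map_sum, map_smul]
    rw [← sum_add_distrib]
    refine sum_congr rfl fun a _ => ?_
    rw [bas, smul_add]; rfl
  · intro c hc
    funext b
    have h1 := ((cf s).continuous.tendsto f).comp hc
    have h2 := ((eval (en b) : D.Z →L[ℂ] ℂ).continuous.tendsto _).comp h1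
    have h3 : Tendsto (fun N => (eval (en b) : D.Z →L[ℂ] ℂ)
        (cf s (∑ i ∈ range N, c i • bas s (en i)))) atTop (𝓝 (c b)) := by
      apply tendsto_const_nhds.congr'
      filter_upwards [eventually_gt_atTop b] with N hN
      rw [map_sum]
      have h4 : ∀ i, cf s (c i • bas s (en i)) = c i • D.dl (en i) := by
        intro i; rw [map_smul, cf_bas]
      simp only [h4]
      rw [eval_apply, trunc_apply (D := D) en c N, Equiv.symm_apply_apply, if_pos hN]
    exact tendsto_nhds_unique h3 h2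

end main

/-- **Abstract basis theorem.** -/
theorem exists_basis (D : Banded X) (hm : ∀ j, 0 < D.m j) (ι : C₀(ℕ, ℂ) →L[ℂ] X) (r : X →L[ℂ] C₀(ℕ, ℂ))
    (hri : ∀ u, r (ι u) = u) :
    ∃ e : ℕ → X, ∀ f, ∃! a : ℕ → ℂ,
      Tendsto (fun N => ∑ i ∈ range N, a i • e i) atTop (𝓝 f) := by
  obtain ⟨p, q, hqp⟩ := exists_compl (I := Idx D.m)
  obtain ⟨Vm, Wm, jj, ev, h1, h2, h3⟩ := exists_swindle D.P D.e D.P_P D.P_e D.e_P D.e_e D.P_add_e
  have hri' : ∀ u, (q.comp r) ((ι.comp p) u) = u := fun u => by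
    rw [ContinuousLinearMap.comp_apply, ContinuousLinearMap.comp_apply, hri, hqp]
  exact exists_basis_aux (⟨Vm, Wm, jj, ev, h1, h2, h3, ι.comp p, q.comp r, hri'⟩ :
    Swindle D C₀(ℕ, D.Z)) hm

end Banded

end Pool.Agent.H69.Ball.Abs
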