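import Pool.Agent.H69.Ball.Closed

/-!
`c_0` is complemented in the ball algebra (peak functions).
-/

open Metric Filter Topology

namespace Pool.Agent.H69.Ball

/-- the space `c_0` -/
abbrev C0 := ZeroAtInftyContinuousMap ℕ ℂ

lemma c0_norm_le {u : C0} {M : ℝ} (hM : 0 ≤ M) (h : ∀ k, ‖u k‖ ≤ M) : ‖u‖ ≤ M := by
  rw [← ZeroAtInftyContinuousMap.norm_toBCF_eq_norm]
  exact (BoundedContinuousFunction.norm_le hM).2 h

lemma c0_norm_apply_le (u : C0) (k : ℕ) : ‖u k‖ ≤ ‖u‖ := by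
  rw [← ZeroAtInftyContinuousMap.norm_toBCF_eq_norm]
  exact u.toBCF.norm_coe_le_norm k

section abstract

variable {X : Type*} [NormedAddCommGroup X] [NormedSpace ℂ X]

lemma c0_summable [CompleteSpace X] (h : ℕ → X) (C : ℝ) (hC0 : 0 < C)
    (hC : ∀ (s : Finset ℕ) (u : ℕ → ℂ) (M : ℝ), 0 ≤ M → (∀ k ∈ s, ‖u k‖ ≤ M) →
      ‖∑ k ∈ s, u k • h k‖ ≤ C * M) (u : C0) : Summable (fun k => u k • h k) := by
  rw [summable_iff_vanishing_norm]
  intro ε hε
  have h1 : Tendsto u cofinite (𝓝 0) := by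
    rw [← cocompact_eq_cofinite]; exact u.zero_at_infty'
  have hpos : 0 < ε / (2 * C) := by positivity
  have h2 : ∀ᶠ k in cofinite, ‖u k‖ < ε / (2 * C) := by
    have := (tendsto_zero_iff_norm_tendsto_zero.1 h1).eventually (gt_mem_nhds hpos)
    exact this
  rw [Filter.eventually_cofinite] at h2
  refine ⟨h2.toFinset, fun t ht => ?_⟩
  have h3 : ∀ k ∈ t, ‖u k‖ ≤ ε / (2 * C) := by
    intro k hk
    by_contra hcon
    have : k ∈ h2.toFinset := by
      rw [Set.Finite.mem_toFinset]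
      intro h4
      exact hcon h4.le
    exact (Finset.disjoint_left.1 ht hk) this
  have h4 := hC t u _ hpos.le h3
  have h5 : C * (ε / (2 * C)) = ε / 2 := by field_simp
  rw [h5] at h4
  linarith

lemma c0_norm_tsum_le [CompleteSpace X] (h : ℕ → X) (C : ℝ) (hC0 : 0 < C)
    (hC : ∀ (s : Finset ℕ) (u : ℕ → ℂ) (M : ℝ), 0 ≤ M → (∀ k ∈ s, ‖u k‖ ≤ M) →
      ‖∑ k ∈ s, u k • h k‖ ≤ C * M) (u : C0) : ‖∑' k, u k • h k‖ ≤ C * ‖u‖ := by
  have h1 := (c0_summable h C hC0 hC u).hasSum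
  have h2 : Tendsto (fun s : Finset ℕ => ‖∑ k ∈ s, u k • h k‖) atTop
      (𝓝 ‖∑' k, u k • h k‖) := h1.norm
  exact le_of_tendsto h2 (Eventually.of_forall fun s =>
    hC s u _ (norm_nonneg _) (fun k _ => c0_norm_apply_le u k))

/-- the embedding of `c_0` given by a sequence with bounded partial sums -/
noncomputable def c0Map [CompleteSpace X] (h : ℕ → X) (C : ℝ) (hC0 : 0 < C)
    (hC : ∀ (s : Finset ℕ) (u : ℕ → ℂ) (M : ℝ), 0 ≤ M → (∀ k ∈ s, ‖u k‖ ≤ M) →
      ‖∑ k ∈ s, u k • h k‖ ≤ C * M) : C0 →L[ℂ] X :=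
  LinearMap.mkContinuous
    { toFun := fun u => ∑' k, u k • h k
      map_add' := by
        intro u v
        rw [← Summable.tsum_add (c0_summable h C hC0 hC u) (c0_summable h C hC0 hC v)]
        refine tsum_congr fun k => ?_
        rw [ZeroAtInftyContinuousMap.add_apply, add_smul]
      map_smul' := by
        intro c u
        simp only [RingHom.id_apply]
        rw [← Summable.tsum_const_smul c (c0_summable h C hC0 hC u)]
        refine tsum_congr fun k => ?_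
        rw [ZeroAtInftyContinuousMap.smul_apply, smul_assoc] } C
    (fun u => c0_norm_tsum_le h C hC0 hC u)

/-- If `φ (h k)` is close to the unit vectors, then `c_0` is complemented. -/
theorem exists_retract [CompleteSpace X] (h : ℕ → X) (C : ℝ) (hC0 : 0 < C)
    (hC : ∀ (s : Finset ℕ) (u : ℕ → ℂ) (M : ℝ), 0 ≤ M → (∀ k ∈ s, ‖u k‖ ≤ M) →
      ‖∑ k ∈ s, u k • h k‖ ≤ C * M) (φ : X →L[ℂ] C0)
    (hφ : ∀ j k, ‖φ (h k) j - (if j = k then 1 else 0)‖ ≤ 2 * (1 / 4 : ℝ) ^ (k + 2)) :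
    ∃ (ι : C0 →L[ℂ] X) (r : X →L[ℂ] C0), ∀ u, r (ι u) = u := by
  set ι : C0 →L[ℂ] X := c0Map h C hC0 hC with hι
  set T : C0 →L[ℂ] C0 := 1 - φ.comp ι with hT
  have hgeo : Summable (fun k : ℕ => 2 * (1 / 4 : ℝ) ^ (k + 2)) := by
    have : Summable (fun k : ℕ => (1 / 4 : ℝ) ^ k) :=
      summable_geometric_of_lt_one (by norm_num) (by norm_num)
    exact ((summable_nat_add_iff 2).2 this).mul_left 2
  have hgeo2 : ∑' k : ℕ, 2 * (1 / 4 : ℝ) ^ (k + 2) = 1 / 6 := by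
    have h1 : ∀ k : ℕ, 2 * (1 / 4 : ℝ) ^ (k + 2) = (1 / 8) * (1 / 4) ^ k := by
      intro k; ring
    simp_rw [h1]
    rw [tsum_mul_left, tsum_geometric_of_lt_one (by norm_num) (by norm_num)]
    norm_num
  have key : ∀ u j, ‖T u j‖ ≤ 1 / 6 * ‖u‖ := by
    intro u j
    let evc : C0 →L[ℂ] ℂ := LinearMap.mkContinuous
      { toFun := fun u => u j
        map_add' := fun u v => rfl
        map_smul' := fun c u => rfl } 1
      (fun u => by rw [one_mul]; exact c0_norm_apply_le u j)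
    have h1 := (c0_summable h C hC0 hC u)
    have h2 : HasSum (fun k => u k • h k) (ι u) := h1.hasSum
    have h3 : HasSum (fun k => (u k) * φ (h k) j) (φ (ι u) j) := by
      have h4 := (evc.comp φ).hasSum h2
      have h5 : (fun k => (evc.comp φ) (u k • h k)) = fun k => (u k) * φ (h k) j := by
        funext k
        rw [map_smul]; rfl
      rw [h5] at h4
      exact h4
    have h5 : HasSum (fun k => (u k) * (if j = k then 1 else 0)) (u j) := by
      have := hasSum_single (f := fun k => (u k) * (if j = k then (1 : ℂ) else 0)) j (by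
        intro k hk
        rw [if_neg (fun h => hk h.symm), mul_zero])
      simpa using this
    have h6 := h3.sub h5
    have h7 : T u j = -(φ (ι u) j - u j) := by
      rw [hT]
      simp
    rw [h7, norm_neg, ← h6.tsum_eq]
    have h8 : ∀ k, ‖u k * φ (h k) j - u k * (if j = k then 1 else 0)‖ ≤
        ‖u‖ * (2 * (1 / 4 : ℝ) ^ (k + 2)) := by
      intro k
      rw [← mul_sub, norm_mul]
      exact mul_le_mul (c0_norm_apply_le u k) (hφ j k) (norm_nonneg _) (norm_nonneg _)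
    calc _ ≤ ∑' k, ‖u‖ * (2 * (1 / 4 : ℝ) ^ (k + 2)) :=
          tsum_of_norm_bounded (hgeo.mul_left _).hasSum h8
      _ = 1 / 6 * ‖u‖ := by rw [tsum_mul_left, hgeo2]; ring
  have hTn : ‖T‖ < 1 := by
    refine lt_of_le_of_lt (T.opNorm_le_bound (M := 1 / 6) (by norm_num) fun u => ?_) (by norm_num)
    exact c0_norm_le (by positivity) (key u)
  let U := Units.oneSub T hTn
  have hU : (U : C0 →L[ℂ] C0) = φ.comp ι := by
    show 1 - T = _
    rw [hT]; abel
  refine ⟨ι, ((U⁻¹ : (C0 →L[ℂ] C0)ˣ) : C0 →L[ℂ] C0).comp φ, fun u => ?_⟩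
  have h1 : ((U⁻¹ : (C0 →L[ℂ] C0)ˣ) : C0 →L[ℂ] C0) * (φ.comp ι) = 1 := by
    rw [← hU]; exact Units.inv_mul U
  have h2 := DFunLike.congr_fun h1 u
  exact h2

end abstract


section peaks

open Complex

lemma peak_sq_le (ζ w : ℂ) (hζ : ‖ζ‖ = 1) (hw : ‖w‖ ≤ 1) :
    ‖(1 + (starRingEnd ℂ) ζ * w) / 2‖ ^ 2 ≤ 1 - ‖w - ζ‖ ^ 2 / 4 := by
  have h1 : ζ * (starRingEnd ℂ) ζ = 1 := by
    rw [Complex.mul_conj, Complex.normSq_eq_norm_sq, hζ]; norm_num
  have h2 : ‖1 + (starRingEnd ℂ) ζ * w‖ = ‖w + ζ‖ := by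
    have h3 : w + ζ = ζ * (1 + (starRingEnd ℂ) ζ * w) := by
      linear_combination (-w) * h1
    rw [h3, norm_mul, hζ, one_mul]
  have h4 := parallelogram_law_with_norm ℝ w ζ
  have h5 : ‖w‖ ^ 2 ≤ 1 := by
    have := norm_nonneg w
    nlinarith
  rw [norm_div, h2]
  have h6 : ‖(2 : ℂ)‖ = 2 := by simp
  rw [h6, hζ] at *
  nlinarith

lemma exists_peak_pow (ζ : ℂ) (hζ : ‖ζ‖ = 1) (δ ε : ℝ) (hδ : 0 < δ) (hε : 0 < ε) :
    ∃ N : ℕ, ∀ w : ℂ, ‖w‖ ≤ 1 → δ ≤ ‖w - ζ‖ →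
      ‖((1 + (starRingEnd ℂ) ζ * w) / 2) ^ N‖ ≤ ε := by
  have h1 : 1 - δ ^ 2 / 4 < 1 := by
    have : 0 < δ ^ 2 := by positivity
    linarith
  have h2 : 0 < ε ^ 2 := by positivity
  obtain ⟨N, hN⟩ := exists_pow_lt_of_lt_one h2 h1
  refine ⟨N, fun w hw hd => ?_⟩
  have h3 := peak_sq_le ζ w hζ hw
  have h4 : ‖(1 + (starRingEnd ℂ) ζ * w) / 2‖ ^ 2 ≤ 1 - δ ^ 2 / 4 := by
    have : δ ^ 2 ≤ ‖w - ζ‖ ^ 2 := pow_le_pow_left₀ hδ.le hd 2
    linarith
  rw [norm_pow]
  have h5 : (‖(1 + (starRingEnd ℂ) ζ * w) / 2‖ ^ N) ^ 2 ≤ ε ^ 2 := by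
    rw [← pow_mul, mul_comm N 2, pow_mul]
    exact (pow_le_pow_left₀ (by positivity) h4 N).trans hN.le
  exact le_of_sq_le_sq h5 hε.le

/-- heights of the peak points -/
noncomputable def ht (k : ℕ) : ℝ := (1 / 2) ^ (k + 1)

lemma ht_pos (k : ℕ) : 0 < ht k := by unfold ht; positivity

lemma ht_le (k : ℕ) : ht k ≤ 1 / 2 := by
  unfold ht
  calc (1 / 2 : ℝ) ^ (k + 1) = (1 / 2) ^ k * (1 / 2) := pow_succ _ _
    _ ≤ 1 * (1 / 2) := by
        gcongr
        exact pow_le_one₀ (by norm_num) (by norm_num)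
    _ = 1 / 2 := by ring

lemma ht_lt {j k : ℕ} (h : j < k) : ht k ≤ ht j / 2 := by
  unfold ht
  have h1 : (1 / 2 : ℝ) ^ (k + 1) ≤ (1 / 2) ^ (j + 1 + 1) :=
    pow_le_pow_of_le_one (by norm_num) (by norm_num) (by omega)
  rw [pow_succ (1 / 2 : ℝ) (j + 1)] at h1
  linarith

/-- the strip around the height `ht k` -/
def Strip (k : ℕ) (y : ℝ) : Prop := |y - ht k| < ht k / 4

lemma strip_unique {j k : ℕ} {y : ℝ} (hj : Strip j y) (hk : Strip k y) : j = k := by
  unfold Strip at hj hk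
  rw [abs_lt] at hj hk
  have h1 := ht_pos j
  have h2 := ht_pos k
  rcases lt_trichotomy j k with h | h | h
  · have := ht_lt h; exfalso; linarith
  · exact h
  · have := ht_lt h; exfalso; linarith

/-- the peak points on the circle -/
noncomputable def zt (k : ℕ) : ℂ := ⟨Real.sqrt (1 - ht k ^ 2), ht k⟩

lemma norm_zt (k : ℕ) : ‖zt k‖ = 1 := by
  have h0 : 0 ≤ 1 - ht k ^ 2 := by
    have := ht_pos k
    have := ht_le k
    nlinarith
  have h1 : ‖zt k‖ ^ 2 = 1 := by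
    rw [← Complex.normSq_eq_norm_sq, Complex.normSq_apply]
    show Real.sqrt (1 - ht k ^ 2) * Real.sqrt (1 - ht k ^ 2) + ht k * ht k = 1
    rw [Real.mul_self_sqrt h0]; ring
  have h2 := norm_nonneg (zt k)
  nlinarith

lemma strip_zt (k : ℕ) : Strip k (zt k).im := by
  unfold Strip
  show |ht k - ht k| < _
  rw [sub_self, abs_zero]
  have := ht_pos k
  positivity

lemma not_strip_one (k : ℕ) : ¬ Strip k (1 : ℂ).im := by
  unfold Strip
  rw [Complex.one_im, zero_sub, abs_neg, abs_of_pos (ht_pos k)]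
  have := ht_pos k
  linarith

lemma le_norm_of_not_strip {k : ℕ} {w : ℂ} (h : ¬ Strip k w.im) : ht k / 4 ≤ ‖w - zt k‖ := by
  unfold Strip at h
  push Not at h
  refine h.trans ?_
  have : w.im - ht k = (w - zt k).im := by
    rw [Complex.sub_im]; rfl
  rw [this]
  exact Complex.abs_im_le_norm _

lemma tendsto_zt : Tendsto zt atTop (𝓝 1) := by
  have h0 : Tendsto ht atTop (𝓝 0) := by
    have : Tendsto (fun k : ℕ => (1 / 2 : ℝ) ^ k) atTop (𝓝 0) :=
      tendsto_pow_atTop_nhds_zero_of_lt_one (by norm_num) (by norm_num)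
    exact (tendsto_add_atTop_iff_nat 1).2 this
  have h1 : Tendsto (fun k => ((Real.sqrt (1 - ht k ^ 2) : ℝ) : ℂ) + ((ht k : ℝ) : ℂ) * I) atTop
      (𝓝 (((Real.sqrt (1 - 0 ^ 2) : ℝ) : ℂ) + ((0 : ℝ) : ℂ) * I)) := by
    have hc : Continuous (fun x : ℝ => ((Real.sqrt (1 - x ^ 2) : ℝ) : ℂ) + ((x : ℝ) : ℂ) * I) := by
      fun_prop
    exact (hc.tendsto 0).comp h0
  have h2 : (((Real.sqrt (1 - 0 ^ 2) : ℝ) : ℂ) + ((0 : ℝ) : ℂ) * I) = 1 := by simp
  rw [h2] at h1
  refine h1.congr fun k => ?_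
  apply Complex.ext <;> simp [zt]

/-- the exponents -/
noncomputable def pk (k : ℕ) : ℕ :=
  (exists_peak_pow (zt k) (norm_zt k) (ht k / 4) ((1 / 4) ^ (k + 2))
    (by have := ht_pos k; positivity) (by positivity)).choose

/-- the one-variable peak functions -/
noncomputable def pf (k : ℕ) (w : ℂ) : ℂ := ((1 + (starRingEnd ℂ) (zt k) * w) / 2) ^ (pk k)

lemma pf_small {k : ℕ} {w : ℂ} (hw : ‖w‖ ≤ 1) (h : ¬ Strip k w.im) :
    ‖pf k w‖ ≤ (1 / 4) ^ (k + 2) :=
  (exists_peak_pow (zt k) (norm_zt k) (ht k / 4) ((1 / 4) ^ (k + 2))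
    (by have := ht_pos k; positivity) (by positivity)).choose_spec w hw (le_norm_of_not_strip h)

lemma pf_le_one {k : ℕ} {w : ℂ} (hw : ‖w‖ ≤ 1) : ‖pf k w‖ ≤ 1 := by
  unfold pf
  rw [norm_pow]
  refine pow_le_one₀ (norm_nonneg _) ?_
  have h1 := peak_sq_le (zt k) w (norm_zt k) hw
  have h2 := norm_nonneg ((1 + (starRingEnd ℂ) (zt k) * w) / 2)
  have h3 : 0 ≤ ‖w - zt k‖ ^ 2 := by positivity
  nlinarith

lemma pf_zt (k : ℕ) : pf k (zt k) = 1 := by
  unfold pf
  have h1 : (starRingEnd ℂ) (zt k) * zt k = 1 := by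
    rw [mul_comm, Complex.mul_conj, Complex.normSq_eq_norm_sq, norm_zt]; norm_num
  rw [h1]
  norm_num

lemma continuous_pf (k : ℕ) : Continuous (pf k) := by
  unfold pf; fun_prop

lemma differentiable_pf (k : ℕ) : Differentiable ℂ (pf k) := by
  unfold pf; fun_prop

lemma sum_pf_le (s : Finset ℕ) {w : ℂ} (hw : ‖w‖ ≤ 1) : ∑ k ∈ s, ‖pf k w‖ ≤ 2 := by
  classical
  have h1 : ∀ k ∈ s, ‖pf k w‖ ≤ (1 / 4 : ℝ) ^ (k + 2) + (if Strip k w.im then 1 else 0) := by
    intro k _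
    split_ifs with h
    · have := pf_le_one (k := k) hw
      have h2 : (0 : ℝ) < (1 / 4 : ℝ) ^ (k + 2) := by positivity
      linarith
    · rw [add_zero]; exact pf_small hw h
  have h2 : ∑ k ∈ s, (if Strip k w.im then (1 : ℝ) else 0) ≤ 1 := by
    rw [← Finset.sum_filter, Finset.sum_const, nsmul_eq_mul, mul_one]
    have : (s.filter fun k => Strip k w.im).card ≤ 1 := by
      rw [Finset.card_le_one]
      intro a ha b hb
      rw [Finset.mem_filter] at ha hb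
      exact strip_unique ha.2 hb.2
    exact_mod_cast this
  have h3 : ∑ k ∈ s, (1 / 4 : ℝ) ^ (k + 2) ≤ 1 := by
    have hs : Summable (fun k : ℕ => (1 / 4 : ℝ) ^ (k + 2)) :=
      (summable_nat_add_iff 2).2 (summable_geometric_of_lt_one (by norm_num) (by norm_num))
    refine (hs.sum_le_tsum s fun k _ => by positivity).trans ?_
    have h4 : ∀ k : ℕ, (1 / 4 : ℝ) ^ (k + 2) = (1 / 16) * (1 / 4) ^ k := by
      intro k; ring
    simp_rw [h4]
    rw [tsum_mul_left, tsum_geometric_of_lt_one (by norm_num) (by norm_num)]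
    norm_num
  calc ∑ k ∈ s, ‖pf k w‖ ≤ ∑ k ∈ s, ((1 / 4 : ℝ) ^ (k + 2) + (if Strip k w.im then 1 else 0)) :=
        Finset.sum_le_sum h1
    _ = ∑ k ∈ s, (1 / 4 : ℝ) ^ (k + 2) + ∑ k ∈ s, (if Strip k w.im then (1 : ℝ) else 0) :=
        Finset.sum_add_distrib
    _ ≤ 1 + 1 := add_le_add h3 h2
    _ = 2 := by norm_num

end peaks

section ballpeaks

variable {n : ℕ}

lemma norm_coord_le (z : K n) (i : Fin n) : ‖(z : E n) i‖ ≤ 1 := by
  have h1 : ‖(z : E n)‖ ≤ 1 := by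
    have := z.2
    rwa [mem_closedBall, dist_zero_right] at this
  exact (PiLp.norm_apply_le (z : E n) i).trans h1

/-- the peak functions on the ball -/
noncomputable def pfK (i : Fin n) (k : ℕ) : C(K n, ℂ) :=
  ⟨fun z => pf k ((z : E n) i), by
    have := continuous_pf k
    fun_prop⟩

lemma pfK_mem (i : Fin n) (k : ℕ) : pfK i k ∈ ballAlg n := by
  rw [mem_ballAlg]
  have h1 : DifferentiableOn ℂ (fun z : E n => pf k (z i)) (ball (0 : E n) 1) := by
    have h2 : Differentiable ℂ (fun z : E n => z i) := by fun_prop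
    exact ((differentiable_pf k).comp h2).differentiableOn
  refine h1.congr fun z hz => ?_
  rw [ext_apply _ z (ball_subset_closedBall hz)]
  rfl

/-- the peak functions in the ball algebra -/
noncomputable def pfA (i : Fin n) (k : ℕ) : ballAlg n := ⟨pfK i k, pfK_mem i k⟩

lemma pfA_sum_le (i : Fin n) (s : Finset ℕ) (u : ℕ → ℂ) (M : ℝ) (hM : 0 ≤ M)
    (hu : ∀ k ∈ s, ‖u k‖ ≤ M) : ‖∑ k ∈ s, u k • pfA i k‖ ≤ 2 * M := by
  rw [← Submodule.norm_coe, ContinuousMap.norm_le _ (by positivity)]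
  intro z
  have h1 : ((∑ k ∈ s, u k • pfA i k : ballAlg n) : C(K n, ℂ)) z
      = ∑ k ∈ s, u k * pf k ((z : E n) i) := by
    rw [Submodule.coe_sum, ContinuousMap.coe_sum, Finset.sum_apply]
    rfl
  rw [h1]
  calc ‖∑ k ∈ s, u k * pf k ((z : E n) i)‖ ≤ ∑ k ∈ s, M * ‖pf k ((z : E n) i)‖ := by
        refine norm_sum_le_of_le _ fun k hk => ?_
        rw [norm_mul]
        exact mul_le_mul_of_nonneg_right (hu k hk) (norm_nonneg _)
    _ = M * ∑ k ∈ s, ‖pf k ((z : E n) i)‖ := by rw [Finset.mul_sum]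
    _ ≤ M * 2 := by
        gcongr
        exact sum_pf_le s (norm_coord_le z i)
    _ = 2 * M := by ring

lemma norm_sgl (i : Fin n) (ζ : ℂ) : ‖(EuclideanSpace.single i ζ : E n)‖ = ‖ζ‖ :=
  PiLp.norm_single 2 (fun _ : Fin n => ℂ) i ζ

lemma dist_sgl (i : Fin n) (ζ ξ : ℂ) :
    dist (EuclideanSpace.single i ζ : E n) (EuclideanSpace.single i ξ) = dist ζ ξ :=
  PiLp.dist_single_same 2 (fun _ : Fin n => ℂ) i ζ ξ

/-- the point `ζ e_i` of the closed ball -/
noncomputable def pt (i : Fin n) (ζ : ℂ) (hζ : ‖ζ‖ = 1) : K n :=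
  ⟨EuclideanSpace.single i ζ, by
    rw [mem_closedBall, dist_zero_right, norm_sgl, hζ]⟩

lemma pt_coord (i : Fin n) (ζ : ℂ) (hζ : ‖ζ‖ = 1) : ((pt i ζ hζ : K n) : E n) i = ζ := by
  simp [pt]

lemma tendsto_pt (i : Fin n) :
    Tendsto (fun k => pt i (zt k) (norm_zt k)) atTop (𝓝 (pt i 1 norm_one)) := by
  rw [tendsto_subtype_rng]
  show Tendsto (fun k => EuclideanSpace.single i (zt k)) atTop (𝓝 (EuclideanSpace.single i 1))
  rw [tendsto_iff_dist_tendsto_zero]
  have h1 : ∀ k, dist (EuclideanSpace.single i (zt k)) (EuclideanSpace.single i (1 : ℂ))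
      = dist (zt k) 1 := fun k => dist_sgl i _ _
  simp_rw [h1]
  exact tendsto_iff_dist_tendsto_zero.1 tendsto_zt

/-- the evaluation map to `c_0`, underlying function -/
noncomputable def evFun (i : Fin n) (f : ballAlg n) : C0 where
  toFun := fun k => (f : C(K n, ℂ)) (pt i (zt k) (norm_zt k)) -
    (f : C(K n, ℂ)) (pt i 1 norm_one)
  continuous_toFun := continuous_of_discreteTopology
  zero_at_infty' := by
    rw [cocompact_eq_cofinite, Nat.cofinite_eq_atTop]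
    have h1 := ((f : C(K n, ℂ)).continuous.tendsto (pt i 1 norm_one)).comp (tendsto_pt i)
    have h2 := h1.sub_const ((f : C(K n, ℂ)) (pt i 1 norm_one))
    rw [sub_self] at h2
    exact h2

lemma evFun_apply (i : Fin n) (f : ballAlg n) (k : ℕ) :
    evFun i f k = (f : C(K n, ℂ)) (pt i (zt k) (norm_zt k)) -
      (f : C(K n, ℂ)) (pt i 1 norm_one) := rfl

/-- the evaluation map to `c_0` -/
noncomputable def evC0 (i : Fin n) : ballAlg n →L[ℂ] C0 :=
  LinearMap.mkContinuous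
    { toFun := evFun i
      map_add' := by
        intro f g
        ext k
        rw [ZeroAtInftyContinuousMap.add_apply, evFun_apply, evFun_apply, evFun_apply,
          Submodule.coe_add, ContinuousMap.add_apply, ContinuousMap.add_apply]
        ring
      map_smul' := by
        intro c f
        ext k
        rw [RingHom.id_apply, ZeroAtInftyContinuousMap.smul_apply, evFun_apply, evFun_apply,
          Submodule.coe_smul, ContinuousMap.smul_apply, ContinuousMap.smul_apply, smul_sub] } 2 (by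
      intro f
      refine c0_norm_le (by positivity) fun k => ?_
      show ‖evFun i f k‖ ≤ _
      rw [evFun_apply]
      refine (norm_sub_le _ _).trans ?_
      have h1 := (f : C(K n, ℂ)).norm_coe_le_norm (pt i (zt k) (norm_zt k))
      have h2 := (f : C(K n, ℂ)).norm_coe_le_norm (pt i 1 norm_one)
      have h3 : ‖f‖ = ‖(f : C(K n, ℂ))‖ := rfl
      rw [h3]
      linarith)

lemma evC0_pfA (i : Fin n) (j k : ℕ) :
    ‖evC0 i (pfA i k) j - (if j = k then 1 else 0)‖ ≤ 2 * (1 / 4 : ℝ) ^ (k + 2) := by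
  have h0 : evC0 i (pfA i k) j = pf k (zt j) - pf k 1 := by
    show pf k (((pt i (zt j) (norm_zt j) : K n) : E n) i) -
      pf k (((pt i 1 norm_one : K n) : E n) i) = _
    rw [pt_coord, pt_coord]
  have h1 : ‖pf k 1‖ ≤ (1 / 4) ^ (k + 2) := pf_small norm_one.le (not_strip_one k)
  have hp : (0 : ℝ) < (1 / 4) ^ (k + 2) := by positivity
  rw [h0]
  split_ifs with h
  · subst h
    rw [pf_zt]
    have h2 : (1 : ℂ) - pf j 1 - 1 = -(pf j 1) := by ring
    rw [h2, norm_neg]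
    linarith
  · rw [sub_zero]
    refine (norm_sub_le _ _).trans ?_
    have h2 : ‖pf k (zt j)‖ ≤ (1 / 4) ^ (k + 2) := by
      refine pf_small (norm_zt j).le ?_
      intro h3
      exact h (strip_unique (strip_zt j) h3)
    linarith

/-- `c_0` is (isomorphic to) a complemented subspace of the ball algebra. -/
theorem exists_complemented_c0 (n : ℕ) (hn : 1 ≤ n) :
    ∃ (ι : ZeroAtInftyContinuousMap ℕ ℂ →L[ℂ] ballAlg n)
      (r : ballAlg n →L[ℂ] ZeroAtInftyContinuousMap ℕ ℂ), ∀ u, r (ι u) = u :=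
  exists_retract (pfA ⟨0, hn⟩) 2 (by norm_num) (fun s u M hM hu => pfA_sum_le _ s u M hM hu)
    (evC0 ⟨0, hn⟩) (evC0_pfA ⟨0, hn⟩)

end ballpeaks

end Pool.Agent.H69.Ball
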