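import Mathlib

/-!
Helper lemmas on `C₀(α, V)` for a discrete index space `α`.
-/

open Filter Topology
open scoped ZeroAtInfty

namespace Pool.Agent.H69.Ball.C0

set_option linter.unusedSectionVars false

variable {α : Type*} [TopologicalSpace α] [DiscreteTopology α]
variable {V : Type*} [NormedAddCommGroup V] [NormedSpace ℂ V]
variable {X : Type*} [NormedAddCommGroup X] [NormedSpace ℂ X]

/-- build an element of `C₀` on a discrete space -/
def mk' (f : α → V) (hf : Tendsto f cofinite (𝓝 0)) : C₀(α, V) where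
  toFun := f
  continuous_toFun := continuous_of_discreteTopology
  zero_at_infty' := by rwa [cocompact_eq_cofinite]

@[simp] lemma mk'_apply (f : α → V) (hf : Tendsto f cofinite (𝓝 0)) (a : α) : mk' f hf a = f a := rfl

lemma norm_apply_le (f : C₀(α, V)) (x : α) : ‖f x‖ ≤ ‖f‖ := by
  rw [← ZeroAtInftyContinuousMap.norm_toBCF_eq_norm]
  exact f.toBCF.norm_coe_le_norm x

lemma norm_le (f : C₀(α, V)) {C : ℝ} (hC : 0 ≤ C) (h : ∀ x, ‖f x‖ ≤ C) : ‖f‖ ≤ C := by
  rw [← ZeroAtInftyContinuousMap.norm_toBCF_eq_norm]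
  exact (BoundedContinuousFunction.norm_le hC).mpr h

lemma tendsto_cofinite (f : C₀(α, V)) : Tendsto f cofinite (𝓝 0) := by
  have := f.zero_at_infty'
  rw [cocompact_eq_cofinite] at this
  exact this

/-- evaluation at a point -/
noncomputable def eval (x : α) : C₀(α, V) →L[ℂ] V :=
  LinearMap.mkContinuous
    { toFun := fun f => f x
      map_add' := fun _ _ => rfl
      map_smul' := fun _ _ => rfl } 1 (fun f => by simpa using norm_apply_le f x)

@[simp] lemma eval_apply (x : α) (f : C₀(α, V)) : eval x f = f x := rfl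

/-- a bounded operator into `C₀` from its coordinates -/
noncomputable def mkCLM (T : α → (X →L[ℂ] V)) (C : ℝ) (hC0 : 0 ≤ C) (hC : ∀ a x, ‖T a x‖ ≤ C * ‖x‖)
    (h : ∀ x, Tendsto (fun a => T a x) cofinite (𝓝 0)) : X →L[ℂ] C₀(α, V) :=
  LinearMap.mkContinuous
    { toFun := fun x => mk' (fun a => T a x) (h x)
      map_add' := fun x y => by ext a; simp [ZeroAtInftyContinuousMap.add_apply]
      map_smul' := fun c x => by ext a; simp [ZeroAtInftyContinuousMap.smul_apply] } C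
    (fun x => norm_le _ (by positivity) (fun a => hC a x))

@[simp] lemma mkCLM_apply (T : α → (X →L[ℂ] V)) (C : ℝ) (hC0 : 0 ≤ C)
    (hC : ∀ a x, ‖T a x‖ ≤ C * ‖x‖) (h : ∀ x, Tendsto (fun a => T a x) cofinite (𝓝 0)) (x : X)
    (a : α) : mkCLM T C hC0 hC h x a = T a x := rfl

/-- `C₀` of a countable family of `c₀` spaces is complemented in `c₀` -/
theorem exists_compl {I : Type*} [TopologicalSpace I] [DiscreteTopology I] [Countable I] :
    ∃ (p : C₀(ℕ, C₀(I, ℂ)) →L[ℂ] C₀(ℕ, ℂ)) (q : C₀(ℕ, ℂ) →L[ℂ] C₀(ℕ, C₀(I, ℂ))),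
      ∀ u, q (p u) = u := by
  classical
  obtain ⟨φ, hφ⟩ := exists_injective_nat (ℕ × I)
  -- the map `q`
  have hq1 : ∀ a : ℕ, ∀ w : C₀(ℕ, ℂ),
      Tendsto (fun i : I => (eval (φ (a, i)) : C₀(ℕ, ℂ) →L[ℂ] ℂ) w) cofinite (𝓝 0) := by
    intro a w
    have hinj : Function.Injective (fun i : I => φ (a, i)) := fun i j h => by
      have := hφ h
      simpa using this
    exact (tendsto_cofinite w).comp hinj.tendsto_cofinite
  obtain ⟨q1, hq1'⟩ : ∃ q1 : ℕ → (C₀(ℕ, ℂ) →L[ℂ] C₀(I, ℂ)), ∀ a w i, q1 a w i = w (φ (a, i)) :=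
    ⟨fun a => mkCLM (X := C₀(ℕ, ℂ)) (V := ℂ) (α := I) (fun i => eval (φ (a, i))) 1 zero_le_one
      (fun i w => by rw [one_mul]; exact norm_apply_le w (φ (a, i))) (hq1 a),
      fun a w i => rfl⟩
  have hq3 : ∀ a w, ‖q1 a w‖ ≤ 1 * ‖w‖ := fun a w => norm_le _ (by positivity)
    (fun i => by rw [hq1', one_mul]; exact norm_apply_le w (φ (a, i)))
  have hq2 : ∀ w, Tendsto (fun a => q1 a w) cofinite (𝓝 0) := by
    intro w
    rw [Metric.tendsto_nhds]
    intro ε hε
    have h1 : ∀ᶠ p in cofinite, dist (w p) 0 < ε / 2 :=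
      (Metric.tendsto_nhds.mp (tendsto_cofinite w)) (ε / 2) (by positivity)
    rw [eventually_cofinite] at h1 ⊢
    have h2 : {x : ℕ × I | ¬ dist (w (φ x)) 0 < ε / 2}.Finite :=
      (h1.preimage hφ.injOn)
    refine (h2.image Prod.fst).subset ?_
    intro a ha
    simp only [Set.mem_ofPred_eq] at ha
    by_contra hcon
    apply ha
    rw [dist_zero_right]
    refine lt_of_le_of_lt (norm_le (C := ε / 2) _ (by positivity) (fun i => ?_)) (by linarith)
    by_contra hi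
    apply hcon
    refine ⟨(a, i), ?_, rfl⟩
    simp only [Set.mem_ofPred_eq, dist_zero_right]
    intro hlt
    rw [hq1'] at hi
    exact hi hlt.le
  obtain ⟨q, hq⟩ : ∃ q : C₀(ℕ, ℂ) →L[ℂ] C₀(ℕ, C₀(I, ℂ)), ∀ w a i, q w a i = w (φ (a, i)) :=
    ⟨mkCLM (X := C₀(ℕ, ℂ)) (V := C₀(I, ℂ)) (α := ℕ) q1 1 zero_le_one hq3 hq2, fun w a i => hq1' a w i⟩
  -- the map `p`
  obtain ⟨p1, hp1, hp1'⟩ : ∃ p1 : ℕ → (C₀(ℕ, C₀(I, ℂ)) →L[ℂ] ℂ),
      (∀ x : ℕ × I, ∀ u, p1 (φ x) u = u x.1 x.2) ∧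
      (∀ k, (¬ ∃ x : ℕ × I, φ x = k) → ∀ u, p1 k u = 0) := by
    refine ⟨fun k => if h : ∃ x : ℕ × I, φ x = k then (eval h.choose.2).comp (eval h.choose.1)
      else 0, ?_, ?_⟩
    · intro x u
      have hex : ∃ y : ℕ × I, φ y = φ x := ⟨x, rfl⟩
      have hch : hex.choose = x := hφ hex.choose_spec
      simp only [dif_pos hex]
      rw [hch]; rfl
    · intro k hk u
      simp only [dif_neg hk]; rfl
  have hp2 : ∀ u, Tendsto (fun k => p1 k u) cofinite (𝓝 0) := by
    intro u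
    rw [Metric.tendsto_nhds]
    intro ε hε
    rw [eventually_cofinite]
    have h1 : {a : ℕ | ¬ dist (u a) 0 < ε}.Finite := by
      have := (Metric.tendsto_nhds.mp (tendsto_cofinite u)) ε hε
      rwa [eventually_cofinite] at this
    have h2 : ∀ a : ℕ, {i : I | ¬ dist (u a i) 0 < ε}.Finite := by
      intro a
      have := (Metric.tendsto_nhds.mp (tendsto_cofinite (u a))) ε hε
      rwa [eventually_cofinite] at this
    have h3 : (⋃ a ∈ {a : ℕ | ¬ dist (u a) 0 < ε},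
        (fun i : I => φ (a, i)) '' {i : I | ¬ dist (u a i) 0 < ε}).Finite :=
      h1.biUnion fun a _ => (h2 a).image _
    refine h3.subset ?_
    intro k hk
    simp only [Set.mem_ofPred_eq] at hk
    by_cases hex : ∃ x : ℕ × I, φ x = k
    · obtain ⟨⟨a, i⟩, rfl⟩ := hex
      rw [hp1] at hk
      simp only [Set.mem_iUnion, Set.mem_image, Set.mem_ofPred_eq]
      refine ⟨a, ?_, i, hk, rfl⟩
      intro hlt
      apply hk
      rw [dist_zero_right] at hlt ⊢
      exact lt_of_le_of_lt (norm_apply_le (u a) i) hlt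
    · rw [hp1' k hex u] at hk
      exact absurd (by simpa using hε) hk
  have hp3 : ∀ k u, ‖p1 k u‖ ≤ 1 * ‖u‖ := by
    intro k u
    by_cases hex : ∃ x : ℕ × I, φ x = k
    · obtain ⟨⟨a, i⟩, rfl⟩ := hex
      rw [hp1, one_mul]
      exact (norm_apply_le (u a) i).trans (norm_apply_le u a)
    · rw [hp1' k hex u, norm_zero]
      positivity
  refine ⟨mkCLM (X := C₀(ℕ, C₀(I, ℂ))) (V := ℂ) (α := ℕ) p1 1 zero_le_one hp3 hp2, q, ?_⟩
  intro u
  ext a i
  rw [hq]
  exact hp1 (a, i) u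

end Pool.Agent.H69.Ball.C0
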