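import Pool.Agent.H69.Ball.Basic

/-!
The ball algebra is closed in `C(closed ball, ℂ)`.
-/

open Metric Filter Topology

namespace Pool.Agent.H69.Ball

/-- Cauchy estimate for the derivative -/
lemma norm_fderiv_ext_le {n : ℕ} (f : C(K n, ℂ)) (hf : f ∈ ballAlg n) (z : E n)
    (hz : z ∈ ball (0 : E n) 1) : ‖fderiv ℂ (ext f) z‖ ≤ 2 * ‖f‖ / (1 - ‖z‖) := by
  have hz' : ‖z‖ < 1 := by simpa using hz
  apply Complex.norm_fderiv_le_div_of_mapsTo_ball (R₁ := 1 - ‖z‖)
  · rw [mem_ballAlg] at hf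
    refine hf.mono fun w hw => ?_
    rw [mem_ball_zero_iff]
    rw [mem_ball, dist_eq_norm] at hw
    calc ‖w‖ = ‖(w - z) + z‖ := by simp
      _ ≤ ‖w - z‖ + ‖z‖ := norm_add_le _ _
      _ < 1 := by linarith
  · intro w _
    rw [mem_closedBall, dist_eq_norm]
    have h1 := norm_ext_le f w
    have h2 := norm_ext_le f z
    have h3 := norm_sub_le (ext f w) (ext f z)
    linarith
  · linarith

theorem isClosed_ballAlg (n : ℕ) : IsClosed (ballAlg n : Set C(K n, ℂ)) := by
  apply IsSeqClosed.isClosed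
  intro u f hu hlim
  change DifferentiableOn ℂ (ext f) (ball (0 : E n) 1)
  intro z hz
  apply DifferentiableAt.differentiableWithinAt
  have hz' : ‖z‖ < 1 := by simpa using hz
  set r : ℝ := (1 + ‖z‖) / 2 with hr
  have hr1 : r < 1 := by rw [hr]; linarith
  have hzr : ‖z‖ < r := by rw [hr]; linarith
  have hsub : ∀ x ∈ ball (0 : E n) r, x ∈ ball (0 : E n) 1 := by
    intro x hx
    exact ball_subset_ball hr1.le hx
  have hdiff : ∀ j, ∀ x ∈ ball (0 : E n) r, HasFDerivAt (ext (u j)) (fderiv ℂ (ext (u j)) x) x := by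
    intro j x hx
    have h1 : DifferentiableOn ℂ (ext (u j)) (ball (0 : E n) 1) := hu j
    exact ((h1 x (hsub x hx)).differentiableAt (isOpen_ball.mem_nhds (hsub x hx))).hasFDerivAt
  have hC : CauchySeq u := hlim.cauchySeq
  have hUC : UniformCauchySeqOn (fun j x => fderiv ℂ (ext (u j)) x) atTop (ball (0 : E n) r) := by
    rw [Metric.uniformCauchySeqOn_iff]
    intro ε hε
    have hpos : 0 < ε * (1 - r) / 2 := by
      have : 0 < 1 - r := by linarith
      positivity
    obtain ⟨N, hN⟩ := (Metric.cauchySeq_iff.mp hC) (ε * (1 - r) / 2) hpos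
    refine ⟨N, fun i hi j hj x hx => ?_⟩
    have h1 : fderiv ℂ (ext (u i)) x - fderiv ℂ (ext (u j)) x = fderiv ℂ (ext (u i - u j)) x := by
      rw [ext_sub]
      exact ((hdiff i x hx).sub (hdiff j x hx)).fderiv.symm
    rw [dist_eq_norm, h1]
    have h2 := norm_fderiv_ext_le (u i - u j) ((ballAlg n).sub_mem (hu i) (hu j)) x (hsub x hx)
    have h3 := hN i hi j hj
    rw [dist_eq_norm] at h3
    have hx' : ‖x‖ < r := by simpa using hx
    calc _ ≤ 2 * ‖u i - u j‖ / (1 - ‖x‖) := h2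
      _ ≤ 2 * ‖u i - u j‖ / (1 - r) := by
        apply div_le_div_of_nonneg_left (by positivity) (by linarith) (by linarith)
      _ < ε := by
        rw [div_lt_iff₀ (by linarith)]
        linarith
  have hex : ∀ x : E n, ∃ L, x ∈ ball (0 : E n) r →
      Tendsto (fun j => fderiv ℂ (ext (u j)) x) atTop (𝓝 L) := by
    intro x
    by_cases hx : x ∈ ball (0 : E n) r
    · obtain ⟨L, hL⟩ := cauchySeq_tendsto_of_complete (hUC.cauchySeq hx)
      exact ⟨L, fun _ => hL⟩
    · exact ⟨0, fun h => absurd h hx⟩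
  choose g' hg' using hex
  have hTU := hUC.tendstoUniformlyOn_of_tendsto (fun x hx => hg' x hx)
  have hpt : ∀ x ∈ ball (0 : E n) r, Tendsto (fun j => ext (u j) x) atTop (𝓝 (ext f x)) := by
    intro x hx
    have hx1 : x ∈ closedBall (0 : E n) 1 := ball_subset_closedBall (hsub x hx)
    have h1 : ∀ j, ext (u j) x = u j ⟨x, hx1⟩ := fun j => ext_apply _ _ _
    simp only [h1]
    rw [ext_apply f x hx1]
    exact ((continuous_eval_const (⟨x, hx1⟩ : K n)).tendsto f).comp hlim
  exact (hasFDerivAt_of_tendstoUniformlyOn isOpen_ball hTU hdiff hpt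
    (by simpa using hzr : z ∈ ball (0 : E n) r)).differentiableAt

instance (n : ℕ) : CompleteSpace (ballAlg n) :=
  (isClosed_ballAlg n).completeSpace_coe

end Pool.Agent.H69.Ball
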