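import Mathlib

/-!
# Discrete Fejér and de la Vallée-Poussin kernel bounds (roots of unity)
-/

open Finset Polynomial

namespace Pool.Agent.H69.Ball

/-- de la Vallée-Poussin multiplier -/
noncomputable def vp (R : ℕ) (k : ℕ) : ℝ := min 1 (max 0 (2 - (k : ℝ) / R))

namespace Fejer

/-- the standard primitive root of unity -/
noncomputable def om (M : ℕ) : ℂ := Complex.exp (2 * Real.pi * Complex.I / M)

lemma om_prim {M : ℕ} (hM : M ≠ 0) : IsPrimitiveRoot (om M) M :=
  Complex.isPrimitiveRoot_exp M hM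

lemma om_pow_ne {M : ℕ} (a : ℕ) : om M ^ a ≠ 0 := pow_ne_zero _ (Complex.exp_ne_zero _)

lemma norm_om {M : ℕ} (hM : M ≠ 0) : ‖om M‖ = 1 :=
  Complex.norm_eq_one_of_pow_eq_one (om_prim hM).pow_eq_one hM

lemma norm_om_pow {M : ℕ} (hM : M ≠ 0) (a : ℕ) : ‖om M ^ a‖ = 1 := by
  rw [norm_pow, norm_om hM, one_pow]

lemma orth {M : ℕ} (hM : M ≠ 0) {k l : ℕ} (hk : k < M) (hl : l < M) :
    ∑ a ∈ range M, (om M ^ a) ^ k * ((om M ^ a)⁻¹) ^ l = if k = l then (M : ℂ) else 0 := by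
  have h1 : ∀ a ∈ range M, (om M ^ a) ^ k * ((om M ^ a)⁻¹) ^ l
      = (om M ^ k * (om M ^ l)⁻¹) ^ a := by
    intro a _
    rw [mul_pow, inv_pow, inv_pow, ← pow_mul, ← pow_mul, ← pow_mul, ← pow_mul, mul_comm a k,
      mul_comm a l]
  rw [sum_congr rfl h1]
  split_ifs with h
  · subst h
    rw [mul_inv_cancel₀ (om_pow_ne k)]
    simp
  · have hx : om M ^ k * (om M ^ l)⁻¹ ≠ 1 := by
      intro hx
      rw [mul_inv_eq_one₀ (om_pow_ne l)] at hx
      exact h ((om_prim hM).pow_inj hk hl hx)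
    rw [geom_sum_eq hx, mul_pow, inv_pow, ← pow_mul, ← pow_mul, mul_comm k, mul_comm l, pow_mul,
      pow_mul, (om_prim hM).pow_eq_one]
    simp

lemma had_sum {M : ℕ} (hM : M ≠ 0) (p q : ℂ[X]) (hp : p.natDegree < M) (hq : q.natDegree < M)
    (ζ η : ℂ) :
    ∑ a ∈ range M, p.eval (om M ^ a * ζ) * q.eval ((om M ^ a)⁻¹ * η)
      = M * ∑ k ∈ range M, p.coeff k * q.coeff k * (ζ * η) ^ k := by
  have h1 : ∀ a ∈ range M, p.eval (om M ^ a * ζ) * q.eval ((om M ^ a)⁻¹ * η)
      = ∑ k ∈ range M, ∑ l ∈ range M, (p.coeff k * ζ ^ k * (q.coeff l * η ^ l)) *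
          ((om M ^ a) ^ k * ((om M ^ a)⁻¹) ^ l) := by
    intro a _
    rw [eval_eq_sum_range' hp, eval_eq_sum_range' hq, sum_mul_sum]
    refine sum_congr rfl fun k _ => sum_congr rfl fun l _ => ?_
    rw [mul_pow, mul_pow]
    ring
  rw [sum_congr rfl h1, sum_comm, mul_sum]
  refine sum_congr rfl fun k hk => ?_
  rw [sum_comm]
  have h2 : ∀ l ∈ range M, ∑ a ∈ range M, (p.coeff k * ζ ^ k * (q.coeff l * η ^ l)) *
          ((om M ^ a) ^ k * ((om M ^ a)⁻¹) ^ l)
      = if l = k then (p.coeff k * ζ ^ k * (q.coeff l * η ^ l)) * M else 0 := by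
    intro l hl
    rw [← mul_sum, orth hM (mem_range.mp hk) (mem_range.mp hl)]
    by_cases h : k = l
    · simp [h]
    · rw [if_neg h, if_neg (fun e => h e.symm), mul_zero]
  rw [sum_congr rfl h2, sum_ite_eq' (range M) k, if_pos hk, mul_pow]
  ring

/-- average of `|p|` over the translates of the `M`-th roots of unity -/
def Bd (M : ℕ) (p : ℂ[X]) (c : ℝ) : Prop :=
  ∀ ζ : ℂ, ‖ζ‖ = 1 → ∑ a ∈ range M, ‖p.eval (om M ^ a * ζ)‖ ≤ M * c

lemma sum_inv {M : ℕ} (hM : M ≠ 0) (g : ℂ → ℝ) :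
    ∑ a ∈ range M, g ((om M ^ a)⁻¹) = ∑ a ∈ range M, g (om M ^ a) := by
  rw [← sum_range_reflect]
  have h1 : ∀ j ∈ range M, g ((om M ^ (M - 1 - j))⁻¹) = g (om M ^ (j + 1)) := by
    intro j hj
    have h2 : om M ^ (M - 1 - j) * om M ^ (j + 1) = 1 := by
      rw [← pow_add]
      have : M - 1 - j + (j + 1) = M := by
        have := mem_range.mp hj
        omega
      rw [this, (om_prim hM).pow_eq_one]
    rw [inv_eq_of_mul_eq_one_right h2]
  rw [sum_congr rfl h1]
  have h2 := sum_range_succ (fun j => g (om M ^ j)) M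
  have h3 := sum_range_succ' (fun j => g (om M ^ j)) M
  rw [(om_prim hM).pow_eq_one] at h2
  rw [pow_zero] at h3
  linarith

lemma Bd.inv {M : ℕ} (hM : M ≠ 0) {p : ℂ[X]} {c : ℝ} (h : Bd M p c) {ζ : ℂ} (hζ : ‖ζ‖ = 1) :
    ∑ a ∈ range M, ‖p.eval ((om M ^ a)⁻¹ * ζ)‖ ≤ M * c := by
  rw [sum_inv hM (fun x => ‖p.eval (x * ζ)‖)]
  exact h ζ hζ

lemma Bd_shift {M : ℕ} (hM : M ≠ 0) (p : ℂ[X]) (c : ℝ) (m : ℕ) :
    Bd M (X ^ m * p) c ↔ Bd M p c := by
  unfold Bd
  refine forall_congr' fun ζ => forall_congr' fun hζ => ?_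
  have h1 : ∀ a ∈ range M, ‖(X ^ m * p).eval (om M ^ a * ζ)‖ = ‖p.eval (om M ^ a * ζ)‖ := by
    intro a _
    rw [eval_mul, eval_pow, eval_X, norm_mul, norm_pow, norm_mul, norm_om_pow hM, hζ]
    simp
  rw [sum_congr rfl h1]

lemma Bd.smul {M : ℕ} {p : ℂ[X]} {c : ℝ} (h : Bd M p c) (s : ℂ) : Bd M (C s * p) (‖s‖ * c) := by
  intro ζ hζ
  have h1 : ∀ a ∈ range M, ‖(C s * p).eval (om M ^ a * ζ)‖ = ‖s‖ * ‖p.eval (om M ^ a * ζ)‖ := by
    intro a _
    rw [eval_mul, eval_C, norm_mul]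
  rw [sum_congr rfl h1, ← mul_sum]
  have := mul_le_mul_of_nonneg_left (h ζ hζ) (norm_nonneg s)
  linarith

lemma Bd.add {M : ℕ} {p q : ℂ[X]} {c d : ℝ} (h : Bd M p c) (h' : Bd M q d) :
    Bd M (p + q) (c + d) := by
  intro ζ hζ
  calc ∑ a ∈ range M, ‖(p + q).eval (om M ^ a * ζ)‖
      ≤ ∑ a ∈ range M, (‖p.eval (om M ^ a * ζ)‖ + ‖q.eval (om M ^ a * ζ)‖) := by
        refine sum_le_sum fun a _ => ?_
        rw [eval_add]
        exact norm_add_le _ _
    _ = ∑ a ∈ range M, ‖p.eval (om M ^ a * ζ)‖ + ∑ a ∈ range M, ‖q.eval (om M ^ a * ζ)‖ :=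
        sum_add_distrib
    _ ≤ M * c + M * d := add_le_add (h ζ hζ) (h' ζ hζ)
    _ = M * (c + d) := by ring

lemma Bd.nonneg {M : ℕ} (hM : M ≠ 0) {p : ℂ[X]} {c : ℝ} (h : Bd M p c) : 0 ≤ c := by
  have h1 := h 1 (by simp)
  have h2 : 0 ≤ ∑ a ∈ range M, ‖p.eval (om M ^ a * 1)‖ := sum_nonneg fun _ _ => norm_nonneg _
  have h3 : (0 : ℝ) < M := by exact_mod_cast Nat.pos_of_ne_zero hM
  by_contra hc
  push Not at hc
  nlinarith

/-- Hadamard products -/
lemma Bd.had {M : ℕ} (hM : M ≠ 0) {p q r : ℂ[X]} {c d : ℝ} (hp : p.natDegree < M)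
    (hq : q.natDegree < M) (h : Bd M p c) (h' : Bd M q d)
    (hr : ∀ k, r.coeff k = p.coeff k * q.coeff k) : Bd M r (c * d) := by
  have hMpos : (0 : ℝ) < M := by exact_mod_cast Nat.pos_of_ne_zero hM
  have hrd : r.natDegree < M := by
    rcases eq_or_ne r 0 with rfl | hr0
    · simpa using Nat.pos_of_ne_zero hM
    · by_contra hcon
      push Not at hcon
      have h1 : r.leadingCoeff ≠ 0 := leadingCoeff_ne_zero.mpr hr0
      apply h1
      rw [leadingCoeff, hr, coeff_eq_zero_of_natDegree_lt (lt_of_lt_of_le hp hcon), zero_mul]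
  intro ζ hζ
  have h1 : ∀ b ∈ range M, (M : ℝ) * ‖r.eval (om M ^ b * ζ)‖
      ≤ ∑ a ∈ range M, ‖p.eval (om M ^ b * (om M ^ a * ζ))‖ * ‖q.eval ((om M ^ a)⁻¹ * 1)‖ := by
    intro b _
    have h2 := had_sum hM p q hp hq (om M ^ b * ζ) 1
    have h3 : r.eval (om M ^ b * ζ)
        = ∑ k ∈ range M, p.coeff k * q.coeff k * (om M ^ b * ζ * 1) ^ k := by
      rw [eval_eq_sum_range' hrd]
      refine sum_congr rfl fun k _ => ?_
      rw [hr, mul_one]
    rw [← h3] at h2
    have h4 : (M : ℝ) * ‖r.eval (om M ^ b * ζ)‖ = ‖(M : ℂ) * r.eval (om M ^ b * ζ)‖ := by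
      rw [norm_mul, Complex.norm_natCast]
    rw [h4, ← h2]
    refine (norm_sum_le _ _).trans (sum_le_sum fun a _ => ?_)
    rw [norm_mul, mul_left_comm]
  have h5 : (M : ℝ) * ∑ b ∈ range M, ‖r.eval (om M ^ b * ζ)‖ ≤ M * (M * (c * d)) := by
    rw [mul_sum]
    refine (sum_le_sum h1).trans ?_
    rw [sum_comm]
    have h6 : ∀ a ∈ range M,
        ∑ b ∈ range M, ‖p.eval (om M ^ b * (om M ^ a * ζ))‖ * ‖q.eval ((om M ^ a)⁻¹ * 1)‖
        ≤ (M * c) * ‖q.eval ((om M ^ a)⁻¹ * 1)‖ := by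
      intro a _
      rw [← sum_mul]
      refine mul_le_mul_of_nonneg_right (h _ ?_) (norm_nonneg _)
      rw [norm_mul, norm_om_pow hM, hζ, one_mul]
    refine (sum_le_sum h6).trans ?_
    rw [← mul_sum]
    have h7 := h'.inv hM (ζ := 1) (by simp)
    have h8 : 0 ≤ M * c := mul_nonneg hMpos.le (h.nonneg hM)
    have := mul_le_mul_of_nonneg_left h7 h8
    linarith
  exact le_of_mul_le_mul_left h5 hMpos

/-- the geometric sum polynomial -/
noncomputable def D (N : ℕ) : ℂ[X] := ∑ j ∈ range N, X ^ j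

lemma coeff_D (N k : ℕ) : (D N).coeff k = if k < N then 1 else 0 := by
  rw [D, finsetSum_coeff]
  simp only [coeff_X_pow]
  rw [sum_ite_eq (range N) k]
  simp

lemma natDegree_D (N : ℕ) : (D N).natDegree ≤ N - 1 := by
  rw [natDegree_le_iff_coeff_eq_zero]
  intro k hk
  rw [coeff_D, if_neg (by omega)]

/-- the Fejér polynomial -/
noncomputable def P (N : ℕ) : ℂ[X] := C (1 / (N : ℂ)) * (D N) ^ 2

lemma coeff_P (N k : ℕ) :
    (P N).coeff k = ((min N (k + 1) - (k + 1 - N) : ℕ) : ℂ) / N := by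
  rw [P, coeff_C_mul, sq, coeff_mul, Nat.sum_antidiagonal_eq_sum_range_succ_mk]
  simp only [coeff_D]
  have h1 : ∑ i ∈ range k.succ, ((if i < N then (1 : ℂ) else 0) * if k - i < N then 1 else 0)
      = ((min N (k + 1) - (k + 1 - N) : ℕ) : ℂ) := by
    rw [← Nat.card_Ico (k + 1 - N) (min N (k + 1)), card_eq_sum_ones, Nat.cast_sum]
    have h2 : Ico (k + 1 - N) (min N (k + 1))
        = (range k.succ).filter (fun i => i < N ∧ k - i < N) := by
      ext i
      simp only [mem_Ico, mem_filter, mem_range]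
      omega
    rw [h2, sum_filter]
    refine sum_congr rfl fun i _ => ?_
    by_cases ha : i < N <;> by_cases hb : k - i < N <;> simp [ha, hb]
  rw [h1]
  ring

lemma natDegree_P (N : ℕ) : (P N).natDegree ≤ 2 * N - 2 := by
  rw [natDegree_le_iff_coeff_eq_zero]
  intro k hk
  rw [coeff_P]
  have : min N (k + 1) - (k + 1 - N) = 0 := by omega
  rw [this]
  simp

lemma Bd_P {M N : ℕ} (hN : 1 ≤ N) (hNM : N ≤ M) : Bd M (P N) 1 := by
  have hM : M ≠ 0 := by omega
  have hN0 : (N : ℝ) ≠ 0 := by positivity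
  intro ζ hζ
  have hζ0 : ζ ≠ 0 := by
    rintro rfl
    simp at hζ
  have h1 : ∀ a ∈ range M, ‖(P N).eval (om M ^ a * ζ)‖
      = (1 / N) * ‖(D N).eval (om M ^ a * ζ)‖ ^ 2 := by
    intro a _
    rw [P, eval_mul, eval_C, eval_pow, norm_mul, norm_pow, norm_div, norm_one,
      Complex.norm_natCast]
  rw [sum_congr rfl h1, ← mul_sum]
  have h2 : ∑ a ∈ range M, ‖(D N).eval (om M ^ a * ζ)‖ ^ 2 = M * N := by
    have h3 := had_sum hM (D N) (D N) (lt_of_le_of_lt (natDegree_D N) (by omega))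
      (lt_of_le_of_lt (natDegree_D N) (by omega)) ζ ζ⁻¹
    have h4 : ∀ a ∈ range M, (D N).eval (om M ^ a * ζ) * (D N).eval ((om M ^ a)⁻¹ * ζ⁻¹)
        = ((‖(D N).eval (om M ^ a * ζ)‖ ^ 2 : ℝ) : ℂ) := by
      intro a _
      have h5 : (D N).eval ((om M ^ a)⁻¹ * ζ⁻¹) = (starRingEnd ℂ) ((D N).eval (om M ^ a * ζ)) := by
        rw [← mul_inv]
        set z := om M ^ a * ζ with hz
        have hz1 : ‖z‖ = 1 := by rw [hz, norm_mul, norm_om_pow hM, hζ, one_mul]
        have hz2 : z⁻¹ = (starRingEnd ℂ) z := by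
          rw [Complex.inv_def, Complex.normSq_eq_norm_sq, hz1]
          simp
        rw [hz2, D, eval_finsetSum, eval_finsetSum, map_sum]
        refine sum_congr rfl fun j _ => ?_
        rw [eval_pow, eval_pow, eval_X, eval_X, map_pow]
      rw [h5, Complex.mul_conj, Complex.normSq_eq_norm_sq]
    rw [sum_congr rfl h4, ← Complex.ofReal_sum] at h3
    have h6 : ∑ k ∈ range M, (D N).coeff k * (D N).coeff k * (ζ * ζ⁻¹) ^ k = (N : ℂ) := by
      rw [mul_inv_cancel₀ hζ0]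
      have : ∀ k ∈ range M, (D N).coeff k * (D N).coeff k * (1 : ℂ) ^ k
          = if k < N then (1 : ℂ) else 0 := by
        intro k _
        rw [coeff_D]
        split_ifs <;> simp
      rw [sum_congr rfl this, ← sum_filter, sum_const, nsmul_eq_mul, mul_one]
      congr 1
      have : (range M).filter (fun k => k < N) = range N := by
        ext k
        simp only [mem_filter, mem_range]
        omega
      rw [this, card_range]
    rw [h6] at h3
    exact_mod_cast h3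
  rw [h2]
  field_simp
  exact le_refl _

lemma vp_one {R k : ℕ} (hR : 1 ≤ R) (h : k ≤ R) : vp R k = 1 := by
  have hR0 : (0 : ℝ) < R := by exact_mod_cast hR
  have h1 : (k : ℝ) / R ≤ 1 := by
    rw [div_le_one hR0]
    exact_mod_cast h
  rw [vp, max_eq_right (by linarith), min_eq_left (by linarith)]

lemma vp_mid {R k : ℕ} (hR : 1 ≤ R) (h : R ≤ k) (h' : k ≤ 2 * R) : vp R k = 2 - (k : ℝ) / R := by
  have hR0 : (0 : ℝ) < R := by exact_mod_cast hR
  have h1 : 1 ≤ (k : ℝ) / R := by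
    rw [one_le_div hR0]
    exact_mod_cast h
  have h2 : (k : ℝ) / R ≤ 2 := by
    rw [div_le_iff₀ hR0]
    exact_mod_cast h'
  rw [vp, max_eq_right (by linarith), min_eq_right (by linarith)]

lemma vp_big {R k : ℕ} (hR : 1 ≤ R) (h' : 2 * R ≤ k) : vp R k = 0 := by
  have hR0 : (0 : ℝ) < R := by exact_mod_cast hR
  have h2 : 2 ≤ (k : ℝ) / R := by
    rw [le_div_iff₀ hR0]
    exact_mod_cast h'
  rw [vp, max_eq_left (by linarith)]
  exact min_eq_right (by norm_num)

end Fejer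

open Fejer

theorem vp_bound (R d : ℕ) (hR : 1 ≤ R) (c : ℕ → ℂ) (B : ℝ)
    (hB : ∀ ζ : ℂ, ‖ζ‖ = 1 → ‖∑ k ∈ Finset.range d, c k * ζ ^ k‖ ≤ B) :
    ‖∑ k ∈ Finset.range d, (vp R k : ℂ) * c k‖ ≤ 3 * B := by
  set M := d + 4 * R with hMdef
  have hM : M ≠ 0 := by omega
  have hMpos : (0 : ℝ) < M := by exact_mod_cast Nat.pos_of_ne_zero hM
  have hB0 : 0 ≤ B := (norm_nonneg _).trans (hB 1 (by simp))
  have hR0 : (R : ℂ) ≠ 0 := by
    have : R ≠ 0 := by omega
    exact_mod_cast this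
  set p : ℂ[X] := ∑ k ∈ range d, C (c k) * X ^ k with hp
  have hpc : ∀ k, p.coeff k = if k < d then c k else 0 := by
    intro k
    rw [hp, finsetSum_coeff]
    simp only [coeff_C_mul_X_pow]
    rw [sum_ite_eq (range d) k]
    simp
  have hpe : ∀ z, p.eval z = ∑ k ∈ range d, c k * z ^ k := by
    intro z
    rw [hp, eval_finsetSum]
    simp
  set q : ℂ[X] := C 2 * P (2 * R) + C (-1) * (X ^ R * P R) with hq
  have hq3 : Bd M q 3 := by
    have h1 := (Bd_P (M := M) (N := 2 * R) (by omega) (by omega)).smul 2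
    have h2 := ((Bd_shift hM (P R) 1 R).mpr (Bd_P (M := M) (N := R) hR (by omega))).smul (-1)
    have h3 := h1.add h2
    have h4 : ‖(2 : ℂ)‖ * 1 + ‖(-1 : ℂ)‖ * 1 = (3 : ℝ) := by
      simp
      norm_num
    rwa [h4] at h3
  have hqc : ∀ k, q.coeff (2 * R - 1 + k) = (vp R k : ℂ) := by
    intro k
    rw [hq, coeff_add, coeff_C_mul, coeff_C_mul, coeff_X_pow_mul', if_pos (by omega), coeff_P,
      coeff_P]
    rcases le_total k R with h1 | h1
    · rw [vp_one hR h1]
      have e1 : min (2 * R) (2 * R - 1 + k + 1) - (2 * R - 1 + k + 1 - 2 * R) = 2 * R - k := by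
        omega
      have e2 : min R (2 * R - 1 + k - R + 1) - (2 * R - 1 + k - R + 1 - R) = R - k := by omega
      rw [e1, e2, Nat.cast_sub (by omega), Nat.cast_sub h1]
      push_cast
      field_simp
      ring
    · rcases le_total k (2 * R) with h2 | h2
      · rw [vp_mid hR h1 h2]
        have e1 : min (2 * R) (2 * R - 1 + k + 1) - (2 * R - 1 + k + 1 - 2 * R) = 2 * R - k := by
          omega
        have e2 : min R (2 * R - 1 + k - R + 1) - (2 * R - 1 + k - R + 1 - R) = 0 := by omega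
        rw [e1, e2, Nat.cast_sub h2]
        push_cast
        field_simp
        ring
      · rw [vp_big hR h2]
        have e1 : min (2 * R) (2 * R - 1 + k + 1) - (2 * R - 1 + k + 1 - 2 * R) = 0 := by omega
        have e2 : min R (2 * R - 1 + k - R + 1) - (2 * R - 1 + k - R + 1 - R) = 0 := by omega
        rw [e1, e2]
        simp
  have hqd : q.natDegree < M := by
    have h1 : (C 2 * P (2 * R)).natDegree ≤ 4 * R - 2 := by
      refine (natDegree_C_mul_le _ _).trans ((natDegree_P _).trans (by omega))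
    have h2 : (C (-1) * (X ^ R * P R)).natDegree ≤ 4 * R - 2 := by
      refine (natDegree_C_mul_le _ _).trans ?_
      refine natDegree_mul_le.trans ?_
      have := natDegree_P R
      rw [natDegree_X_pow]
      omega
    have h3 := natDegree_add_le_of_degree_le h1 h2
    rw [← hq] at h3
    omega
  have hpd : (X ^ (2 * R - 1) * p).natDegree < M := by
    have h1 : p.natDegree ≤ d := by
      rw [natDegree_le_iff_coeff_eq_zero]
      intro k hk
      rw [hpc, if_neg (by omega)]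
    refine lt_of_le_of_lt natDegree_mul_le ?_
    rw [natDegree_X_pow]
    omega
  have hmain := had_sum hM (X ^ (2 * R - 1) * p) q hpd hqd 1 1
  have hsum : ∑ k ∈ range M, (X ^ (2 * R - 1) * p).coeff k * q.coeff k * (1 * 1 : ℂ) ^ k
      = ∑ k ∈ range d, (vp R k : ℂ) * c k := by
    have e1 : M = (2 * R - 1) + (d + 2 * R + 1) := by omega
    rw [e1, sum_range_add]
    have z1 : ∑ k ∈ range (2 * R - 1),
        (X ^ (2 * R - 1) * p).coeff k * q.coeff k * (1 * 1 : ℂ) ^ k = 0 := by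
      refine sum_eq_zero fun k hk => ?_
      rw [coeff_X_pow_mul', if_neg (by have := mem_range.mp hk; omega)]
      simp
    have z2 : ∀ k ∈ range (d + 2 * R + 1),
        (X ^ (2 * R - 1) * p).coeff (2 * R - 1 + k) * q.coeff (2 * R - 1 + k)
          * (1 * 1 : ℂ) ^ (2 * R - 1 + k) = if k < d then (vp R k : ℂ) * c k else 0 := by
      intro k _
      rw [coeff_X_pow_mul', if_pos (by omega), hqc, hpc, mul_one, one_pow, mul_one,
        show 2 * R - 1 + k - (2 * R - 1) = k by omega]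
      split_ifs
      · ring
      · simp
    rw [z1, sum_congr rfl z2, zero_add, ← sum_filter]
    refine sum_congr ?_ fun _ _ => rfl
    ext k
    simp only [mem_filter, mem_range]
    omega
  rw [hsum] at hmain
  have hn1 : ∀ a ∈ range M, ‖(X ^ (2 * R - 1) * p).eval (om M ^ a * 1) *
      q.eval ((om M ^ a)⁻¹ * 1)‖ ≤ B * ‖q.eval ((om M ^ a)⁻¹ * 1)‖ := by
    intro a _
    rw [norm_mul]
    refine mul_le_mul_of_nonneg_right ?_ (norm_nonneg _)
    rw [eval_mul, eval_pow, eval_X, norm_mul, norm_pow, mul_one, norm_om_pow hM, one_pow, one_mul,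
      hpe]
    exact hB _ (norm_om_pow hM a)
  have hn2 : (M : ℝ) * ‖∑ k ∈ range d, (vp R k : ℂ) * c k‖ ≤ M * (3 * B) := by
    have h4 : (M : ℝ) * ‖∑ k ∈ range d, (vp R k : ℂ) * c k‖
        = ‖(M : ℂ) * ∑ k ∈ range d, (vp R k : ℂ) * c k‖ := by
      rw [norm_mul, Complex.norm_natCast]
    rw [h4, ← hmain]
    refine (norm_sum_le _ _).trans ((sum_le_sum hn1).trans ?_)
    rw [← mul_sum]
    have h5 := hq3.inv hM (ζ := 1) (by simp)
    have := mul_le_mul_of_nonneg_left h5 hB0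
    linarith
  exact le_of_mul_le_mul_left hn2 hMpos

namespace Fejer

/-- the kernel `∑ (vp (2h) k - vp h k) * choose (n+k) n * X^k` -/
noncomputable def kap (h n : ℕ) : ℂ[X] :=
  ∑ k ∈ range (4 * h), C (((vp (2 * h) k - vp h k : ℝ) : ℂ) * (Nat.choose (n + k) n : ℂ)) * X ^ k

lemma coeff_kap (h n k : ℕ) : (kap h n).coeff k =
    if k < 4 * h then ((vp (2 * h) k - vp h k : ℝ) : ℂ) * (Nat.choose (n + k) n : ℂ) else 0 := by
  rw [kap, finsetSum_coeff]
  simp only [coeff_C_mul_X_pow]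
  rw [sum_ite_eq (range (4 * h)) k]
  simp

lemma natDegree_kap (h n : ℕ) : (kap h n).natDegree ≤ 4 * h := by
  rw [natDegree_le_iff_coeff_eq_zero]
  intro k hk
  rw [coeff_kap, if_neg (by omega)]

lemma kap_zero {h : ℕ} (hh : 1 ≤ h) :
    kap h 0 = X ^ (h + 1) * P h + C (1 / 2) * (X ^ (2 * h + 1) * P h) := by
  have hh0 : (h : ℂ) ≠ 0 := by
    have : h ≠ 0 := by omega
    exact_mod_cast this
  ext k
  rw [coeff_kap, coeff_add, coeff_C_mul, coeff_X_pow_mul', coeff_X_pow_mul', coeff_P, coeff_P]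
  simp only [Nat.zero_add, Nat.choose_zero_right, Nat.cast_one, mul_one]
  rcases lt_or_ge k (h + 1) with h1 | h1
  · rw [if_pos (by omega), if_neg (by omega), if_neg (by omega), vp_one (by omega) (by omega),
      vp_one hh (by omega)]
    simp
  rcases lt_or_ge k (2 * h + 1) with h2 | h2
  · rw [if_pos (by omega), if_pos (by omega), if_neg (by omega), vp_one (by omega) (by omega),
      vp_mid hh (by omega) (by omega)]
    have e1 : min h (k - (h + 1) + 1) - (k - (h + 1) + 1 - h) = k - h := by omega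
    rw [e1, Nat.cast_sub (by omega)]
    push_cast
    field_simp
    ring
  rcases lt_or_ge k (4 * h) with h3 | h3
  · rw [if_pos (by omega), if_pos (by omega), if_pos (by omega), vp_mid (by omega) (by omega)
      (by omega), vp_big hh (by omega)]
    rcases le_total k (3 * h) with h4 | h4
    · have e1 : min h (k - (h + 1) + 1) - (k - (h + 1) + 1 - h) = 3 * h - k := by omega
      have e2 : min h (k - (2 * h + 1) + 1) - (k - (2 * h + 1) + 1 - h) = k - 2 * h := by omega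
      rw [e1, e2, Nat.cast_sub (by omega), Nat.cast_sub (by omega)]
      push_cast
      field_simp
      ring
    · have e1 : min h (k - (h + 1) + 1) - (k - (h + 1) + 1 - h) = 0 := by omega
      have e2 : min h (k - (2 * h + 1) + 1) - (k - (2 * h + 1) + 1 - h) = 4 * h - k := by omega
      rw [e1, e2, Nat.cast_sub (by omega)]
      push_cast
      field_simp
      ring
  · rw [if_neg (by omega), if_pos (by omega), if_pos (by omega)]
    have e1 : min h (k - (h + 1) + 1) - (k - (h + 1) + 1 - h) = 0 := by omega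
    have e2 : min h (k - (2 * h + 1) + 1) - (k - (2 * h + 1) + 1 - h) = 0 := by omega
    rw [e1, e2]
    simp

lemma Bd_kap {h : ℕ} (hh : 1 ≤ h) (n : ℕ) {M : ℕ} (hMn : 8 * h + 2 * n < M) :
    Bd M (kap h n) (3 / 2 * (Nat.choose (4 * h - 1 + n) n : ℝ)) := by
  have hM : M ≠ 0 := by omega
  induction n with
  | zero =>
    rw [kap_zero hh]
    have h1 := (Bd_shift hM (P h) 1 (h + 1)).mpr (Bd_P (M := M) hh (by omega))
    have h2 := ((Bd_shift hM (P h) 1 (2 * h + 1)).mpr (Bd_P (M := M) hh (by omega))).smul (1 / 2)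
    have h3 := h1.add h2
    have h4 : 1 + ‖(1 / 2 : ℂ)‖ * 1 = 3 / 2 * (Nat.choose (4 * h - 1 + 0) 0 : ℝ) := by
      simp
      norm_num
    rwa [h4] at h3
  | succ n ih =>
    have ih' := ih (by omega)
    have h1 := (Bd_shift hM (kap h n) _ n).mpr ih'
    have h2 := (Bd_P (M := M) (N := 4 * h + n) (by omega) (by omega)).smul
      (((4 * h + n : ℕ) : ℂ) / ((n + 1 : ℕ) : ℂ))
    have hd1 : (X ^ n * kap h n).natDegree < M := by
      refine lt_of_le_of_lt natDegree_mul_le ?_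
      rw [natDegree_X_pow]
      have := natDegree_kap h n
      omega
    have hd2 : (C (((4 * h + n : ℕ) : ℂ) / ((n + 1 : ℕ) : ℂ)) * P (4 * h + n)).natDegree < M := by
      refine lt_of_le_of_lt (natDegree_C_mul_le _ _) ?_
      have := natDegree_P (4 * h + n)
      omega
    have h3 := h1.had hM hd1 hd2 h2 (r := X ^ n * kap h (n + 1)) (by
      intro k
      rw [coeff_X_pow_mul', coeff_X_pow_mul', coeff_C_mul, coeff_P, coeff_kap, coeff_kap]
      by_cases hk : n ≤ k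
      · rw [if_pos hk, if_pos hk]
        by_cases hk2 : k - n < 4 * h
        · rw [if_pos hk2, if_pos hk2]
          have e1 : min (4 * h + n) (k + 1) - (k + 1 - (4 * h + n)) = k + 1 := by omega
          rw [e1]
          have e2 : ((4 * h + n : ℕ) : ℂ) ≠ 0 := by
            have : 4 * h + n ≠ 0 := by omega
            exact_mod_cast this
          have e3 : ((n + 1 : ℕ) : ℂ) ≠ 0 := by
            have : n + 1 ≠ 0 := by omega
            exact_mod_cast this
          have e4 : (((n + 1 + (k - n)).choose (n + 1) : ℕ) : ℂ) * ((n + 1 : ℕ) : ℂ)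
              = ((k + 1 : ℕ) : ℂ) * (((n + (k - n)).choose n : ℕ) : ℂ) := by
            rw [show n + 1 + (k - n) = k + 1 by omega, show n + (k - n) = k by omega]
            exact_mod_cast (Nat.add_one_mul_choose_eq k n).symm
          have e5 : (((n + 1 + (k - n)).choose (n + 1) : ℕ) : ℂ)
              = ((k + 1 : ℕ) : ℂ) * (((n + (k - n)).choose n : ℕ) : ℂ) / ((n + 1 : ℕ) : ℂ) := by
            rw [eq_div_iff e3, e4]
          rw [e5]
          field_simp
        · rw [if_neg hk2, if_neg hk2, zero_mul]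
      · rw [if_neg hk, if_neg hk, zero_mul])
    have h4 := (Bd_shift hM (kap h (n + 1)) _ n).mp h3
    have h5 : 3 / 2 * (Nat.choose (4 * h - 1 + n) n : ℝ) *
        (‖((4 * h + n : ℕ) : ℂ) / ((n + 1 : ℕ) : ℂ)‖ * 1)
        = 3 / 2 * (Nat.choose (4 * h - 1 + (n + 1)) (n + 1) : ℝ) := by
      rw [norm_div, Complex.norm_natCast, Complex.norm_natCast, mul_one]
      have e3 : ((n + 1 : ℕ) : ℝ) ≠ 0 := by positivity
      have e4 : (((4 * h - 1 + (n + 1)).choose (n + 1) : ℕ) : ℝ) * ((n + 1 : ℕ) : ℝ)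
          = ((4 * h + n : ℕ) : ℝ) * (((4 * h - 1 + n).choose n : ℕ) : ℝ) := by
        have := Nat.add_one_mul_choose_eq (4 * h - 1 + n) n
        rw [show 4 * h - 1 + n + 1 = 4 * h - 1 + (n + 1) by omega] at this
        rw [show 4 * h + n = 4 * h - 1 + (n + 1) by omega]
        exact_mod_cast this.symm
      have e5 : (((4 * h - 1 + (n + 1)).choose (n + 1) : ℕ) : ℝ)
          = ((4 * h + n : ℕ) : ℝ) * (((4 * h - 1 + n).choose n : ℕ) : ℝ) / ((n + 1 : ℕ) : ℝ) := by
        rw [eq_div_iff e3, e4]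
      rw [e5]
      ring
    rwa [h5] at h4

/-- maximum principle -/
lemma Bd.disc {M : ℕ} {q : ℂ[X]} {c : ℝ} (hq : Bd M q c) {l : ℂ} (hl : ‖l‖ ≤ 1) :
    ∑ a ∈ range M, ‖q.eval (om M ^ a * l)‖ ≤ M * c := by
  set w : ℕ → ℂ := fun a => q.eval (om M ^ a * l) with hw
  set u : ℕ → ℂ := fun a => (starRingEnd ℂ) (w a) / ‖w a‖ with hu
  have hu1 : ∀ a, ‖u a‖ ≤ 1 := by
    intro a
    rw [hu]
    simp only [norm_div, RCLike.norm_conj, Complex.norm_real, norm_norm]
    exact div_self_le_one _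
  have hu2 : ∀ a, u a * w a = (‖w a‖ : ℂ) := by
    intro a
    by_cases h0 : w a = 0
    · simp [h0]
    · have h1 : (‖w a‖ : ℂ) ≠ 0 := by
        have := norm_ne_zero_iff.mpr h0
        exact_mod_cast this
      rw [hu]
      simp only
      rw [div_mul_eq_mul_div, div_eq_iff h1, mul_comm, Complex.mul_conj, Complex.normSq_eq_norm_sq]
      push_cast
      ring
  set Φ : ℂ → ℂ := fun ζ => ∑ a ∈ range M, u a * q.eval (om M ^ a * ζ) with hΦ
  have hΦd : Differentiable ℂ Φ := by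
    rw [hΦ]
    fun_prop
  have h1 : ‖Φ l‖ ≤ M * c := by
    refine Complex.norm_le_of_forall_mem_frontier_norm_le (U := Metric.ball (0 : ℂ) 1)
      Metric.isBounded_ball hΦd.diffContOnCl ?_ ?_
    · intro z hz
      rw [frontier_ball (0 : ℂ) one_ne_zero, mem_sphere_zero_iff_norm] at hz
      refine le_trans ?_ (hq z hz)
      refine (norm_sum_le _ _).trans (sum_le_sum fun a _ => ?_)
      rw [norm_mul]
      exact mul_le_of_le_one_left (norm_nonneg _) (hu1 a)
    · rw [closure_ball (0 : ℂ) one_ne_zero, mem_closedBall_zero_iff]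
      exact hl
  have h2 : Φ l = ((∑ a ∈ range M, ‖w a‖ : ℝ) : ℂ) := by
    rw [hΦ]
    simp only
    push_cast
    exact sum_congr rfl fun a _ => hu2 a
  rw [h2, Complex.norm_real, Real.norm_of_nonneg (sum_nonneg fun _ _ => norm_nonneg _)] at h1
  exact h1

end Fejer

theorem kernel_bound (n h : ℕ) (hh : 1 ≤ h) : ∃ M : ℕ, 0 < M ∧ ∀ l : ℂ, ‖l‖ ≤ 1 →
    (1 / (M : ℝ)) * ∑ a ∈ Finset.range M,
      ‖∑ k ∈ Finset.range (4 * h), ((vp (2 * h) k - vp h k : ℝ) : ℂ) * (Nat.choose (n + k) n : ℂ)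
        * (Complex.exp (2 * Real.pi * Complex.I / M) ^ a * l) ^ k‖
      ≤ 3 / 2 * (Nat.choose (4 * h + n) n : ℝ) * ‖l‖ ^ h := by
  refine ⟨8 * h + 2 * n + 1, by omega, fun l hl => ?_⟩
  set M := 8 * h + 2 * n + 1 with hMdef
  have hM : M ≠ 0 := by omega
  have hMpos : (0 : ℝ) < M := by exact_mod_cast Nat.pos_of_ne_zero hM
  have hB := Bd_kap hh n (M := M) (by omega)
  have hdvd : X ^ h ∣ kap h n := by
    rw [X_pow_dvd_iff]
    intro k hk
    rw [coeff_kap, if_pos (by omega), vp_one (by omega) (by omega), vp_one hh (by omega)]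
    simp
  obtain ⟨q, hq⟩ := hdvd
  rw [hq] at hB
  have hBq := ((Bd_shift hM q _ h).mp hB).disc hl
  have h1 : ∀ a ∈ range M, ‖∑ k ∈ Finset.range (4 * h),
      ((vp (2 * h) k - vp h k : ℝ) : ℂ) * (Nat.choose (n + k) n : ℂ)
        * (Complex.exp (2 * Real.pi * Complex.I / M) ^ a * l) ^ k‖
      = ‖l‖ ^ h * ‖q.eval (om M ^ a * l)‖ := by
    intro a _
    have h2 : ∑ k ∈ Finset.range (4 * h),
      ((vp (2 * h) k - vp h k : ℝ) : ℂ) * (Nat.choose (n + k) n : ℂ)
        * (Complex.exp (2 * Real.pi * Complex.I / M) ^ a * l) ^ k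
        = (kap h n).eval (om M ^ a * l) := by
      rw [kap, eval_finsetSum]
      refine sum_congr rfl fun k _ => ?_
      rw [eval_mul, eval_C, eval_pow, eval_X]
      rfl
    rw [h2, hq, eval_mul, eval_pow, eval_X, norm_mul, norm_pow, norm_mul, norm_om_pow hM, one_mul]
  rw [sum_congr rfl h1, ← mul_sum]
  have h3 : (Nat.choose (4 * h - 1 + n) n : ℝ) ≤ Nat.choose (4 * h + n) n := by
    exact_mod_cast Nat.choose_le_choose n (by omega)
  have h4 : ‖l‖ ^ h * ∑ a ∈ range M, ‖q.eval (om M ^ a * l)‖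
      ≤ ‖l‖ ^ h * (M * (3 / 2 * (Nat.choose (4 * h + n) n : ℝ))) := by
    refine mul_le_mul_of_nonneg_left (hBq.trans ?_) (by positivity)
    refine mul_le_mul_of_nonneg_left ?_ hMpos.le
    linarith
  calc (1 / (M : ℝ)) * (‖l‖ ^ h * ∑ a ∈ range M, ‖q.eval (om M ^ a * l)‖)
      ≤ (1 / (M : ℝ)) * (‖l‖ ^ h * (M * (3 / 2 * (Nat.choose (4 * h + n) n : ℝ)))) :=
        mul_le_mul_of_nonneg_left h4 (by positivity)
    _ = 3 / 2 * (Nat.choose (4 * h + n) n : ℝ) * ‖l‖ ^ h := by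
        field_simp

end Pool.Agent.H69.Ball
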