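import Pool.Agent.H69.Ball.Ops
import Pool.Agent.H69.Ball.Basis
import Pool.Agent.H69.Ball.C0
import Pool.Agent.H59.Ball.Sampling

/-!
The ball algebra has a Schauder basis.
-/

open Metric Filter Topology

namespace Pool.Agent.H69.Ball

variable {n : ℕ}

open Fejer in
lemma VP_eq_Op (R N : ℕ) (hR : 1 ≤ R) (hN : 2 * R ≤ N) (g : C(K n, ℂ)) :
    VP n R g = Op n N (vp R) g := by
  unfold VP
  rw [Op_mono hN (vp R) (fun k hk => vp_big hR hk)]

/-- multiplier of the `j`-th block -/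
noncomputable def ph : ℕ → ℕ → ℝ
  | 0, k => vp 2 k
  | j + 1, k => vp (2 * 2 ^ (j + 1)) k - vp (2 ^ (j + 1)) k

/-- the `j`-th block -/
noncomputable def Dj (n j : ℕ) : C(K n, ℂ) →L[ℂ] C(K n, ℂ) :=
  match j with
  | 0 => VP n 2
  | j + 1 => Bk n (2 * 2 ^ j)

lemma ph_big (j k : ℕ) (h : 2 ^ (j + 2) ≤ k) : ph j k = 0 := by
  cases j with
  | zero => exact Fejer.vp_big (by norm_num) (by simpa using h)
  | succ j =>
    have h1 : 2 ^ (j + 1 + 2) = 4 * 2 ^ (j + 1) := by ring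
    rw [h1] at h
    have h2 : 1 ≤ 2 ^ (j + 1) := Nat.one_le_two_pow
    change vp (2 * 2 ^ (j + 1)) k - vp (2 ^ (j + 1)) k = 0
    rw [Fejer.vp_big (by omega) (by omega), Fejer.vp_big (by omega) (by omega), sub_zero]

lemma ph_small (j k : ℕ) (hj : 1 ≤ j) (h : k ≤ 2 ^ j) : ph j k = 0 := by
  cases j with
  | zero => omega
  | succ j =>
    have h2 : 1 ≤ 2 ^ (j + 1) := Nat.one_le_two_pow
    change vp (2 * 2 ^ (j + 1)) k - vp (2 ^ (j + 1)) k = 0
    rw [Fejer.vp_one (by omega) (by omega), Fejer.vp_one (by omega) (by omega), sub_self]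

lemma Dj_eq_Op (j N : ℕ) (hN : 2 ^ (j + 2) ≤ N) (g : C(K n, ℂ)) :
    Dj n j g = Op n N (ph j) g := by
  cases j with
  | zero =>
    exact VP_eq_Op 2 N (by norm_num) (by simpa using hN) g
  | succ j =>
    rw [Op_mono hN (ph (j + 1)) (fun k hk => ph_big (j + 1) k hk)]
    have h1 : 2 ^ (j + 1 + 2) = 4 * (2 * 2 ^ j) := by ring
    have h2 : 2 * 2 ^ j = 2 ^ (j + 1) := by ring
    change Op n (4 * (2 * 2 ^ j)) (fun k => vp (2 * (2 * 2 ^ j)) k - vp (2 * 2 ^ j) k) g = _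
    rw [h1, h2]
    rfl

lemma Dj_mem (j : ℕ) (g : C(K n, ℂ)) : Dj n j g ∈ ballAlg n := by
  rw [Dj_eq_Op j _ le_rfl]
  exact Op_mem _ _ _

lemma norm_Dj_le (hn : 1 ≤ n) (j : ℕ) (g : C(K n, ℂ)) :
    ‖Dj n j g‖ ≤ (‖VP n 2‖ + 3 / 2 * 8 ^ n) * ‖g‖ := by
  cases j with
  | zero =>
    refine ((VP n 2).le_opNorm g).trans ?_
    gcongr
    have : (0 : ℝ) ≤ 3 / 2 * 8 ^ n := by positivity
    linarith
  | succ j =>
    refine (norm_Bk_le hn (2 ^ j) Nat.one_le_two_pow g).trans ?_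
    gcongr
    have := norm_nonneg (VP n 2)
    linarith

/-- multiplier of the wide block -/
noncomputable def ps (j k : ℕ) : ℝ := vp (2 ^ (j + 2)) k - (if 2 ≤ j then vp (2 ^ (j - 1)) k else 0)

/-- the wide block -/
noncomputable def Dt (n j : ℕ) : C(K n, ℂ) →L[ℂ] C(K n, ℂ) := Op n (2 ^ (j + 3)) (ps j)

lemma ps_big (j k : ℕ) (h : 2 ^ (j + 3) ≤ k) : ps j k = 0 := by
  unfold ps
  have h1 : 2 ^ (j + 3) = 2 * 2 ^ (j + 2) := by ring
  have h2 : 1 ≤ 2 ^ (j + 2) := Nat.one_le_two_pow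
  have h3 : 2 ^ (j - 1) ≤ 2 ^ (j + 2) := Nat.pow_le_pow_right (by norm_num) (by omega)
  rw [Fejer.vp_big h2 (by omega)]
  split_ifs
  · rw [Fejer.vp_big Nat.one_le_two_pow (by omega), sub_zero]
  · rw [sub_zero]

lemma Dt_eq_Op (j N : ℕ) (hN : 2 ^ (j + 3) ≤ N) (g : C(K n, ℂ)) :
    Dt n j g = Op n N (ps j) g := by
  unfold Dt
  rw [Op_mono hN (ps j) (fun k hk => ps_big j k hk)]

lemma ps_ph (j k : ℕ) : ph j k * ps j k = ph j k := by
  by_cases h : ph j k = 0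
  · rw [h, zero_mul]
  have h1 : k < 2 ^ (j + 2) := by
    by_contra hcon
    exact h (ph_big j k (not_lt.mp hcon))
  have h2 : ps j k = 1 := by
    unfold ps
    rw [Fejer.vp_one Nat.one_le_two_pow h1.le]
    split_ifs with hj
    · have h3 : 2 ^ j < k := by
        by_contra hcon
        exact h (ph_small j k (by omega) (not_lt.mp hcon))
      have h4 : 2 * 2 ^ (j - 1) = 2 ^ j := by
        obtain ⟨i, rfl⟩ : ∃ i, j = i + 1 := ⟨j - 1, by omega⟩
        simp only [Nat.add_sub_cancel]; ring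
      rw [Fejer.vp_big Nat.one_le_two_pow (by omega), sub_zero]
    · rw [sub_zero]
  rw [h2, mul_one]

lemma ps_ph_far (i j k : ℕ) (hij : i + 3 ≤ j ∨ j + 3 ≤ i) : ps i k * ph j k = 0 := by
  by_cases h : ph j k = 0
  · rw [h, mul_zero]
  have h1 : k < 2 ^ (j + 2) := by
    by_contra hcon
    exact h (ph_big j k (not_lt.mp hcon))
  have h2 : ps i k = 0 := by
    rcases hij with hij | hij
    · have h3 : 2 ^ j < k := by
        by_contra hcon
        exact h (ph_small j k (by omega) (not_lt.mp hcon))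
      have h4 : 2 ^ (i + 3) ≤ 2 ^ j := Nat.pow_le_pow_right (by norm_num) hij
      exact ps_big i k (by omega)
    · have h4 : 2 ^ (j + 2) ≤ 2 ^ (i - 1) := Nat.pow_le_pow_right (by norm_num) (by omega)
      have h5 : 2 ^ (i - 1) ≤ 2 ^ (i + 2) := Nat.pow_le_pow_right (by norm_num) (by omega)
      unfold ps
      rw [Fejer.vp_one Nat.one_le_two_pow (by omega), if_pos (by omega),
        Fejer.vp_one Nat.one_le_two_pow (by omega), sub_self]
  rw [h2, zero_mul]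

lemma Dj_Dt (hn : 1 ≤ n) (j : ℕ) (g : C(K n, ℂ)) : Dj n j (Dt n j g) = Dj n j g := by
  have h : 2 ^ (j + 2) ≤ 2 ^ (j + 3) := Nat.pow_le_pow_right (by norm_num) (by omega)
  rw [Dj_eq_Op j _ h, Dj_eq_Op j _ h, Dt, Op_Op hn]
  congr 2
  funext k
  exact ps_ph j k

lemma Dt_Dj_far (hn : 1 ≤ n) (i j : ℕ) (hij : i + 3 ≤ j ∨ j + 3 ≤ i) (g : C(K n, ℂ)) :
    Dt n i (Dj n j g) = 0 := by
  have h1 : 2 ^ (j + 2) ≤ 2 ^ (i + j + 3) := Nat.pow_le_pow_right (by norm_num) (by omega)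
  have h2 : 2 ^ (i + 3) ≤ 2 ^ (i + j + 3) := Nat.pow_le_pow_right (by norm_num) (by omega)
  rw [Dj_eq_Op j _ h1, Dt_eq_Op i _ h2, Op_Op hn, Op_apply]
  refine Finset.sum_eq_zero fun k _ => ?_
  rw [ps_ph_far i j k hij, zero_smulC]

lemma norm_Dt_le (hn : 1 ≤ n) (j : ℕ) (f : C(K n, ℂ)) (hf : f ∈ ballAlg n) :
    ‖Dt n j f‖ ≤ 6 * ‖f‖ := by
  have h1 : 2 * 2 ^ (j + 2) ≤ 2 ^ (j + 3) := by
    have : 2 ^ (j + 3) = 2 * 2 ^ (j + 2) := by ring
    omega
  have h2 : 2 * 2 ^ (j - 1) ≤ 2 ^ (j + 3) := by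
    have h3 : 2 ^ (j - 1) ≤ 2 ^ (j + 2) := Nat.pow_le_pow_right (by norm_num) (by omega)
    omega
  by_cases hj : 2 ≤ j
  · have h3 : Dt n j f = VP n (2 ^ (j + 2)) f - VP n (2 ^ (j - 1)) f := by
      rw [VP_eq_Op _ _ Nat.one_le_two_pow h1, VP_eq_Op _ _ Nat.one_le_two_pow h2, Dt, Op_apply,
        Op_apply, Op_apply, ← Finset.sum_sub_distrib]
      refine Finset.sum_congr rfl fun k _ => ?_
      ext z
      simp only [ContinuousMap.smul_apply, ContinuousMap.sub_apply, smul_eq_mul, ps, if_pos hj]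
      push_cast; ring
    rw [h3]
    have h4 := norm_VP_le hn (2 ^ (j + 2)) Nat.one_le_two_pow f hf
    have h5 := norm_VP_le hn (2 ^ (j - 1)) Nat.one_le_two_pow f hf
    linarith [norm_sub_le (VP n (2 ^ (j + 2)) f) (VP n (2 ^ (j - 1)) f)]
  · have h3 : Dt n j f = VP n (2 ^ (j + 2)) f := by
      rw [VP_eq_Op _ _ Nat.one_le_two_pow h1, Dt, Op_apply, Op_apply]
      refine Finset.sum_congr rfl fun k _ => ?_
      simp only [ps, if_neg hj, sub_zero]
    rw [h3]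
    have h4 := norm_VP_le hn (2 ^ (j + 2)) Nat.one_le_two_pow f hf
    linarith [norm_nonneg f]

lemma sum_Dj (N : ℕ) (g : C(K n, ℂ)) :
    ∑ j ∈ Finset.range (N + 1), Dj n j g = VP n (2 ^ (N + 1)) g := by
  induction N with
  | zero => simp [Dj]
  | succ N ih =>
    rw [Finset.sum_range_succ, ih]
    have h1 : 2 * 2 ^ (N + 1) ≤ 2 ^ (N + 1 + 2) := by
      have : 2 ^ (N + 1 + 2) = 4 * 2 ^ (N + 1) := by ring
      omega
    have h2 : 2 * 2 ^ (N + 1 + 1) ≤ 2 ^ (N + 1 + 2) := by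
      have : 2 ^ (N + 1 + 2) = 2 * 2 ^ (N + 1 + 1) := by ring
      omega
    rw [VP_eq_Op _ _ Nat.one_le_two_pow h1, VP_eq_Op _ _ Nat.one_le_two_pow h2,
      Dj_eq_Op (N + 1) _ le_rfl, Op_apply, Op_apply, Op_apply, ← Finset.sum_add_distrib]
    refine Finset.sum_congr rfl fun k _ => ?_
    have h3 : 2 ^ (N + 1 + 1) = 2 * 2 ^ (N + 1) := by ring
    ext z
    simp only [ContinuousMap.smul_apply, ContinuousMap.add_apply, smul_eq_mul, ph, h3]
    push_cast; ring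

/-- polynomials of degree less than `N` -/
noncomputable def Pol (n N : ℕ) : Submodule ℂ C(K n, ℂ) :=
  Submodule.span ℂ (⋃ k ∈ Finset.range N, Set.range fun s : Fin k → Fin n => monC s)

instance (n N : ℕ) : FiniteDimensional ℂ (Pol n N) := by
  apply FiniteDimensional.span_of_finite
  exact Set.Finite.biUnion (Finset.finite_toSet _) fun k _ => Set.finite_range _

lemma Op_mem_Pol (N : ℕ) (a : ℕ → ℝ) (g : C(K n, ℂ)) : Op n N a g ∈ Pol n N := by
  rw [Op_apply]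
  refine Submodule.sum_mem _ fun k hk => Submodule.smul_mem _ _ ?_
  rw [H_eq_sum]
  refine Submodule.sum_mem _ fun s _ => Submodule.smul_mem _ _ (Submodule.subset_span ?_)
  exact Set.mem_biUnion hk ⟨s, rfl⟩

instance (n : ℕ) : Nonempty (K n) := ⟨⟨0, by simp⟩⟩

/-- the banded factorization of the ball algebra -/
theorem exists_banded (hn : 1 ≤ n) : ∃ D : Abs.Banded (ballAlg n), ∀ j, 0 < D.m j := by
  have h := fun j : ℕ => Pool.Agent.H59.Ball.exists_sampling (K := K n) (Pol n (2 ^ (j + 3)))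
  choose m τ G hm hτ hG hGτ using h
  have hVP := norm_nonneg (VP n 2)
  refine ⟨
    { m := m
      S := fun j => ((Dj n j).comp (G j)).codRestrict (ballAlg n) (fun x => Dj_mem j _)
      T := fun j => (τ j).comp ((Dt n j).comp (ballAlg n).subtypeL)
      C := 2 * (‖VP n 2‖ + 3 / 2 * 8 ^ n) + 6
      C_nonneg := by positivity
      b := 3
      hS := ?_
      hT := ?_
      band := ?_
      sum := ?_ }, hm⟩
  · intro j x
    have h1 : ‖G j x‖ ≤ 2 * ‖x‖ := ((G j).le_opNorm x).trans (by gcongr; exact hG j)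
    have h2 := norm_Dj_le hn j (G j x)
    change ‖Dj n j (G j x)‖ ≤ _
    calc ‖Dj n j (G j x)‖ ≤ (‖VP n 2‖ + 3 / 2 * 8 ^ n) * ‖G j x‖ := h2
      _ ≤ (‖VP n 2‖ + 3 / 2 * 8 ^ n) * (2 * ‖x‖) := by gcongr
      _ ≤ _ := by nlinarith [norm_nonneg x]
  · intro j f
    change ‖τ j (Dt n j (f : C(K n, ℂ)))‖ ≤ _
    have h1 : ‖τ j (Dt n j (f : C(K n, ℂ)))‖ ≤ 1 * ‖Dt n j (f : C(K n, ℂ))‖ :=
      ((τ j).le_opNorm _).trans (by gcongr; exact hτ j)
    have h2 := norm_Dt_le hn j (f : C(K n, ℂ)) f.2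
    have h3 : ‖f‖ = ‖(f : C(K n, ℂ))‖ := rfl
    rw [h3]
    have h4 : 0 ≤ (‖VP n 2‖ + 3 / 2 * 8 ^ n) * ‖(f : C(K n, ℂ))‖ := by positivity
    nlinarith
  · intro i j hij x
    change τ i (Dt n i (Dj n j (G j x))) = 0
    rw [Dt_Dj_far hn i j hij, map_zero]
  · intro f
    rw [tendsto_subtype_rng]
    have h1 := (VP_tendsto hn (f : C(K n, ℂ)) f.2).comp
      (tendsto_pow_atTop_atTop_of_one_lt (by norm_num : 1 < 2))
    refine h1.congr' ?_
    filter_upwards [eventually_ge_atTop 1] with N hN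
    obtain ⟨N, rfl⟩ : ∃ M, N = M + 1 := ⟨N - 1, by omega⟩
    rw [Function.comp_apply, ← sum_Dj, Submodule.coe_sum]
    refine Finset.sum_congr rfl fun j _ => ?_
    change Dj n j (f : C(K n, ℂ)) = Dj n j (G j (τ j (Dt n j (f : C(K n, ℂ)))))
    rw [hGτ j _ (by unfold Dt; exact Op_mem_Pol _ _ _), Dj_Dt hn]

/-- The ball algebra has a Schauder basis. -/
theorem exists_basis_ballAlg (hn : 1 ≤ n) :
    ∃ e : ℕ → ballAlg n, ∀ f, ∃! a : ℕ → ℂ,
      Tendsto (fun N => ∑ i ∈ Finset.range N, a i • e i) atTop (𝓝 f) := by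
  obtain ⟨D, hD⟩ := exists_banded hn
  obtain ⟨ι, r, hri⟩ := exists_complemented_c0 n hn
  exact D.exists_basis hD ι r hri

lemma tendsto_iff (e : ℕ → ballAlg n) (a : ℕ → ℂ) (f : E n → ℂ) (F : ballAlg n)
    (hF : ∀ z : K n, (F : C(K n, ℂ)) z = f z) :
    Tendsto (fun N => ∑ i ∈ Finset.range N, a i • e i) atTop (𝓝 F) ↔
    TendstoUniformlyOn (fun (N : ℕ) (z : E n) => ∑ i ∈ Finset.range N, a i * ext (e i : C(K n, ℂ)) z)
      f atTop (closedBall (0 : E n) 1) := by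
  rw [tendsto_subtype_rng, ContinuousMap.tendsto_iff_tendstoUniformly,
    tendstoUniformlyOn_iff_tendstoUniformly_comp_coe]
  have h1 : (fun (N : ℕ) (z : K n) =>
      ((∑ i ∈ Finset.range N, a i • e i : ballAlg n) : C(K n, ℂ)) z)
      = fun (N : ℕ) => (fun z : E n => ∑ i ∈ Finset.range N, a i * ext (e i : C(K n, ℂ)) z)
        ∘ (Subtype.val : K n → E n) := by
    funext N z
    rw [Submodule.coe_sum, ContinuousMap.sum_apply]
    refine Finset.sum_congr rfl fun i _ => ?_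
    rw [ext_coe]
    rfl
  have h2 : (f ∘ (Subtype.val : K n → E n)) = ((F : C(K n, ℂ)) : K n → ℂ) := by
    funext z
    exact (hF z).symm
  rw [h1, h2]
  exact Iff.rfl

theorem main (n : ℕ) (hn : 1 ≤ n) :
    ∃ e : ℕ → (EuclideanSpace ℂ (Fin n) → ℂ),
      (∀ i, ContinuousOn (e i) (Metric.closedBall (0 : EuclideanSpace ℂ (Fin n)) 1) ∧
            DifferentiableOn ℂ (e i) (Metric.ball (0 : EuclideanSpace ℂ (Fin n)) 1)) ∧
      ∀ f : EuclideanSpace ℂ (Fin n) → ℂ,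
        ContinuousOn f (Metric.closedBall (0 : EuclideanSpace ℂ (Fin n)) 1) →
        DifferentiableOn ℂ f (Metric.ball (0 : EuclideanSpace ℂ (Fin n)) 1) →
        ∃! a : ℕ → ℂ,
          TendstoUniformlyOn
            (fun (N : ℕ) (z : EuclideanSpace ℂ (Fin n)) => ∑ i ∈ Finset.range N, a i * e i z)
            f Filter.atTop (Metric.closedBall (0 : EuclideanSpace ℂ (Fin n)) 1) := by
  obtain ⟨e, he⟩ := exists_basis_ballAlg hn
  refine ⟨fun i => ext (e i : C(K n, ℂ)), fun i => ⟨continuousOn_ext _, (e i).2⟩, ?_⟩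
  intro f hc hd
  let F0 : C(K n, ℂ) := ⟨fun z => f z, continuousOn_iff_continuous_domRestrict.mp hc⟩
  have hF0 : F0 ∈ ballAlg n := by
    rw [mem_ballAlg]
    refine hd.congr fun z hz => ?_
    rw [ext_apply _ _ (ball_subset_closedBall hz)]
    rfl
  obtain ⟨a, ha, hau⟩ := he ⟨F0, hF0⟩
  refine ⟨a, ?_, fun b hb => hau b ?_⟩
  · exact (tendsto_iff e a f ⟨F0, hF0⟩ (fun z => rfl)).mp ha
  · exact (tendsto_iff e b f ⟨F0, hF0⟩ (fun z => rfl)).mpr hb

end Pool.Agent.H69.Ball
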