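import Pool.Agent.H69.Ball.Closed
import Pool.Agent.H55.Ball.Slice

/-!
The homogeneous projections `H k` of `C(closed ball)` into the ball algebra.
-/

open Metric Filter Topology MeasureTheory

namespace Pool.Agent.H69.Ball

variable {n : ℕ}

/-- the inclusion of the ball algebra -/
noncomputable abbrev inc (n : ℕ) : ballAlg n →L[ℂ] C(K n, ℂ) := (ballAlg n).subtypeL

/-- monomials -/
noncomputable def mon {k : ℕ} (s : Fin k → Fin n) (z : E n) : ℂ := ∏ i, z (s i)

lemma continuous_mon {k : ℕ} (s : Fin k → Fin n) : Continuous (mon s) := by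
  unfold mon
  fun_prop

lemma differentiable_mon {k : ℕ} (s : Fin k → Fin n) : Differentiable ℂ (mon s) := by
  unfold mon
  fun_prop

lemma mon_smul {k : ℕ} (s : Fin k → Fin n) (c : ℂ) (z : E n) : mon s (c • z) = c ^ k * mon s z := by
  unfold mon
  simp [Finset.prod_mul_distrib]

lemma norm_coord_le' (z : E n) (i : Fin n) : ‖z i‖ ≤ ‖z‖ := by
  exact PiLp.norm_apply_le z i

lemma norm_mon_le {k : ℕ} (s : Fin k → Fin n) (z : E n) (hz : ‖z‖ ≤ 1) : ‖mon s z‖ ≤ 1 := by
  unfold mon
  rw [norm_prod]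
  exact Finset.prod_le_one (fun _ _ => norm_nonneg _) fun i _ => (norm_coord_le' z _).trans hz

/-- monomials as elements of `C(closed ball)` -/
noncomputable def monC {k : ℕ} (s : Fin k → Fin n) : C(K n, ℂ) :=
  ⟨fun z => mon s z, (continuous_mon s).comp continuous_subtype_val⟩

lemma monC_apply {k : ℕ} (s : Fin k → Fin n) (z : K n) : monC s z = mon s z := rfl

lemma monC_mem {k : ℕ} (s : Fin k → Fin n) : monC s ∈ ballAlg n := by
  rw [mem_ballAlg]
  refine (differentiable_mon s).differentiableOn.congr fun z hz => ?_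
  rw [ext_apply _ _ (ball_subset_closedBall hz)]
  rfl

/-- the volume of the unit ball -/
noncomputable def vB (n : ℕ) : ℝ := (volume (ball (0 : E n) 1)).toReal

lemma vB_pos (n : ℕ) : 0 < vB n := by
  unfold vB
  exact ENNReal.toReal_pos (measure_ball_pos _ _ one_pos).ne' measure_ball_lt_top.ne

instance (n : ℕ) : IsFiniteMeasure (volume.restrict (ball (0 : E n) 1)) :=
  ⟨by rw [Measure.restrict_apply_univ]; exact measure_ball_lt_top⟩

lemma integrable_mul (g : C(K n, ℂ)) (φ : E n → ℂ) (hφ : Continuous φ) :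
    Integrable (fun w => φ w * ext g w) (volume.restrict (ball (0 : E n) 1)) := by
  have hcont : ContinuousOn (fun w => φ w * ext g w) (closedBall (0 : E n) 1) :=
    hφ.continuousOn.mul (continuousOn_ext g)
  have h1 : IntegrableOn (fun w => φ w * ext g w) (closedBall (0 : E n) 1) volume :=
    hcont.integrableOn_compact (isCompact_closedBall _ _)
  exact h1.mono_set ball_subset_closedBall

lemma integrable_co {k : ℕ} (s : Fin k → Fin n) (g : C(K n, ℂ)) :
    Integrable (fun w => (starRingEnd ℂ) (mon s w) * ext g w)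
      (volume.restrict (ball (0 : E n) 1)) :=
  integrable_mul g _ (Complex.continuous_conj.comp (continuous_mon s))

/-- coefficient functional -/
noncomputable def co {k : ℕ} (s : Fin k → Fin n) : C(K n, ℂ) →L[ℂ] ℂ :=
  LinearMap.mkContinuous
    { toFun := fun g => ∫ w in ball (0 : E n) 1, (starRingEnd ℂ) (mon s w) * ext g w
      map_add' := fun f g => by
        rw [← integral_add (integrable_co s f) (integrable_co s g)]
        congr 1
        funext w
        rw [ext_add, Pi.add_apply, mul_add]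
      map_smul' := fun c g => by
        rw [RingHom.id_apply, smul_eq_mul, ← integral_const_mul]
        congr 1
        funext w
        rw [ext_smul, Pi.smul_apply, smul_eq_mul]
        ring } (vB n) (fun g => by
      have h1 : ‖∫ w in ball (0 : E n) 1, (starRingEnd ℂ) (mon s w) * ext g w‖
          ≤ ‖g‖ * (volume (ball (0 : E n) 1)).toReal := by
        apply norm_setIntegral_le_of_norm_le_const measure_ball_lt_top
        intro w hw
        rw [norm_mul, RCLike.norm_conj]
        have h2 := norm_mon_le s w (by simpa using (ball_subset_closedBall hw))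
        have h3 := norm_ext_le g w
        nlinarith [norm_nonneg (mon s w), norm_nonneg (ext g w)]
      exact h1.trans (le_of_eq (mul_comm _ _)))

lemma co_apply {k : ℕ} (s : Fin k → Fin n) (g : C(K n, ℂ)) :
    co s g = ∫ w in ball (0 : E n) 1, (starRingEnd ℂ) (mon s w) * ext g w := rfl

/-- normalising constant -/
noncomputable def cc (n k : ℕ) : ℝ := (Nat.choose (n + k) n : ℝ) / vB n

/-- the homogeneous projection -/
noncomputable def H (n k : ℕ) : C(K n, ℂ) →L[ℂ] C(K n, ℂ) :=
  (cc n k : ℂ) • ∑ s : Fin k → Fin n, (co s).smulRight (monC s)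

lemma inner_pow (k : ℕ) (w z : E n) :
    (inner ℂ w z : ℂ) ^ k = ∑ s : Fin k → Fin n, (starRingEnd ℂ) (mon s w) * mon s z := by
  have h1 : (inner ℂ w z : ℂ) = ∑ i, (starRingEnd ℂ) (w i) * z i := by
    rw [PiLp.inner_apply]
    refine Finset.sum_congr rfl fun i _ => ?_
    rw [RCLike.inner_apply]; ring
  rw [h1, Fintype.sum_pow]
  refine Finset.sum_congr rfl fun s _ => ?_
  unfold mon
  rw [map_prod, ← Finset.prod_mul_distrib]

lemma H_eq_sum (k : ℕ) (g : C(K n, ℂ)) :
    H n k g = ∑ s : Fin k → Fin n, ((cc n k : ℂ) * co s g) • monC s := by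
  unfold H
  rw [_root_.smul_apply, _root_.sum_apply, Finset.smul_sum]
  refine Finset.sum_congr rfl fun s _ => ?_
  rw [ContinuousLinearMap.smulRight_apply, smul_smul]

lemma H_mem (k : ℕ) (g : C(K n, ℂ)) : H n k g ∈ ballAlg n := by
  rw [H_eq_sum]
  exact Submodule.sum_mem _ fun s _ => Submodule.smul_mem _ _ (monC_mem s)

lemma H_apply (k : ℕ) (g : C(K n, ℂ)) (z : K n) :
    H n k g z
      = (cc n k : ℂ) * ∫ w in ball (0 : E n) 1, (inner ℂ w (z : E n) : ℂ) ^ k * ext g w := by
  rw [H_eq_sum, ContinuousMap.sum_apply]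
  have h1 : ∀ w : E n, (inner ℂ w (z : E n) : ℂ) ^ k * ext g w
      = ∑ s : Fin k → Fin n, mon s z * ((starRingEnd ℂ) (mon s w) * ext g w) := by
    intro w
    rw [inner_pow, Finset.sum_mul]
    refine Finset.sum_congr rfl fun s _ => ?_
    ring
  simp only [h1]
  rw [integral_finsetSum _ fun s _ => (integrable_co s g).const_mul _]
  rw [Finset.mul_sum]
  refine Finset.sum_congr rfl fun s _ => ?_
  rw [integral_const_mul, ContinuousMap.smul_apply, monC_apply, co_apply, smul_eq_mul]
  ring

lemma ext_H_smul (k : ℕ) (g : C(K n, ℂ)) (c : ℂ) (z : E n) (hz : z ∈ closedBall (0 : E n) 1)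
    (hcz : c • z ∈ closedBall (0 : E n) 1) : ext (H n k g) (c • z) = c ^ k * ext (H n k g) z := by
  rw [ext_apply _ _ hz, ext_apply _ _ hcz, H_eq_sum, ContinuousMap.sum_apply,
    ContinuousMap.sum_apply, Finset.mul_sum]
  refine Finset.sum_congr rfl fun s _ => ?_
  rw [ContinuousMap.smul_apply, ContinuousMap.smul_apply, monC_apply, monC_apply]
  simp only [smul_eq_mul]
  rw [mon_smul]
  ring

lemma H_H_ne (k l : ℕ) (hkl : k ≠ l) (g : C(K n, ℂ)) : H n l (H n k g) = 0 := by
  ext z
  rw [H_apply]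
  set I := ∫ w in ball (0 : E n) 1, (inner ℂ w (z : E n) : ℂ) ^ l * ext (H n k g) w with hI
  have hne : ((k : ℂ) - l) ≠ 0 := sub_ne_zero.mpr (by exact_mod_cast hkl)
  set θ : ℝ := Real.pi / ((k : ℝ) - l) with hθ
  set c : ℂ := Complex.exp (θ * Complex.I) with hc
  have hc1 : ‖c‖ = 1 := Complex.norm_exp_ofReal_mul_I θ
  have hcc : (starRingEnd ℂ) c = Complex.exp (-(θ * Complex.I)) := by
    rw [hc, ← Complex.exp_conj]
    congr 1
    simp
  have h1 : (starRingEnd ℂ) c ^ l * c ^ k = -1 := by
    rw [hcc, hc, ← Complex.exp_nat_mul, ← Complex.exp_nat_mul, ← Complex.exp_add,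
      ← Complex.exp_pi_mul_I]
    congr 1
    rw [hθ]
    push_cast
    field_simp
    ring
  have h2 : I = -I := by
    have h3 := Slice.integral_comp_isometry (Slice.rotAll n c hc1)
      (fun w => (inner ℂ w (z : E n) : ℂ) ^ l * ext (H n k g) w)
    rw [← hI] at h3
    refine h3.symm.trans ?_
    rw [hI, ← integral_neg]
    apply setIntegral_congr_fun measurableSet_ball
    intro w hw
    have hw1 : w ∈ closedBall (0 : E n) 1 := ball_subset_closedBall hw
    have hw2 : c • w ∈ closedBall (0 : E n) 1 := by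
      rw [mem_closedBall_zero_iff] at hw1 ⊢
      rw [norm_smul, hc1, one_mul]; exact hw1
    simp only [Slice.rotAll_apply]
    rw [ext_H_smul k g c w hw1 hw2, inner_smul_left, mul_pow]
    linear_combination ((inner ℂ w (z : E n) : ℂ) ^ l * ext (H n k g) w) * h1
  have h4 : I = 0 := by
    have : (2 : ℂ) * I = 0 := by linear_combination h2
    simpa using this
  rw [h4, mul_zero]; rfl

lemma H_expansion (hn : 1 ≤ n) (f : C(K n, ℂ)) (hf : f ∈ ballAlg n) (z : K n) (l : ℂ)
    (hl : ‖l‖ < 1) : HasSum (fun k : ℕ => l ^ k * H n k f z) (ext f (l • (z : E n))) := by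
  have hz : ‖(z : E n)‖ ≤ 1 := mem_closedBall_zero_iff.mp z.2
  have h := slice_expansion n hn (ext f) (continuousOn_ext f) hf z hz l hl
  refine h.congr_fun ?_ 
  intro k
  rw [H_apply]; rfl

lemma H_H_self (hn : 1 ≤ n) (k : ℕ) (g : C(K n, ℂ)) : H n k (H n k g) = H n k g := by
  ext z
  have h := H_expansion hn (H n k g) (H_mem k g) z (1 / 2) (by norm_num)
  have h2 : HasSum (fun j : ℕ => (1 / 2 : ℂ) ^ j * H n j (H n k g) z)
      ((1 / 2 : ℂ) ^ k * H n k (H n k g) z) := by
    apply hasSum_single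
    intro j hj
    rw [H_H_ne k j hj.symm]; simp
  have h3 := h.unique h2
  have hz : (z : E n) ∈ closedBall (0 : E n) 1 := z.2
  have hz2 : (1 / 2 : ℂ) • (z : E n) ∈ closedBall (0 : E n) 1 := by
    rw [mem_closedBall_zero_iff] at hz ⊢
    rw [norm_smul]
    have : ‖(1 / 2 : ℂ)‖ = 1 / 2 := by norm_num
    rw [this]; linarith
  rw [ext_H_smul k g _ _ hz hz2, ext_coe] at h3
  have h4 : (1 / 2 : ℂ) ^ k ≠ 0 := pow_ne_zero _ (by norm_num)
  exact (mul_left_cancel₀ h4 h3).symm

end Pool.Agent.H69.Ball
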