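import Pool.Agent.H69.Ball.Hom
import Pool.Agent.H69.Ball.Fejer

/-!
Multiplier operators on `C(closed ball)`: density of polynomials, the de la Vallee-Poussin sums and
the bound for the dyadic blocks.
-/

open Metric Filter Topology MeasureTheory

namespace Pool.Agent.H69.Ball

variable {n : ℕ}

lemma smul_zeroC (c : ℂ) : c • (0 : C(K n, ℂ)) = 0 := by
  ext z; simp

lemma zero_smulC (g : C(K n, ℂ)) : ((0 : ℝ) : ℂ) • g = 0 := by
  ext z; simp

/-- the multiplier operator with multiplier `a` supported in `[0, N)` -/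
noncomputable def Op (n N : ℕ) (a : ℕ → ℝ) : C(K n, ℂ) →L[ℂ] C(K n, ℂ) :=
  ∑ k ∈ Finset.range N, (a k : ℂ) • H n k

lemma Op_apply (N : ℕ) (a : ℕ → ℝ) (g : C(K n, ℂ)) :
    Op n N a g = ∑ k ∈ Finset.range N, (a k : ℂ) • H n k g := by
  unfold Op
  rw [_root_.sum_apply]
  rfl

lemma Op_mem (N : ℕ) (a : ℕ → ℝ) (g : C(K n, ℂ)) : Op n N a g ∈ ballAlg n := by
  rw [Op_apply]
  exact Submodule.sum_mem _ fun k _ => Submodule.smul_mem _ _ (H_mem k g)

lemma Op_mono {N N' : ℕ} (hN : N ≤ N') (a : ℕ → ℝ) (ha : ∀ k, N ≤ k → a k = 0) (g : C(K n, ℂ)) :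
    Op n N' a g = Op n N a g := by
  rw [Op_apply, Op_apply]
  symm
  apply Finset.sum_subset (Finset.range_mono hN)
  intro k _ hk
  rw [Finset.mem_range, not_lt] at hk
  rw [ha k hk, zero_smulC]

lemma H_Op (hn : 1 ≤ n) (N : ℕ) (a : ℕ → ℝ) (l : ℕ) (g : C(K n, ℂ)) :
    H n l (Op n N a g) = if l < N then (a l : ℂ) • H n l g else 0 := by
  rw [Op_apply, map_sum]
  simp only [map_smul]
  split_ifs with h
  · rw [Finset.sum_eq_single l]
    · rw [H_H_self hn]
    · intro k _ hk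
      rw [H_H_ne k l hk, smul_zeroC]
    · intro hl
      exact absurd (Finset.mem_range.mpr h) hl
  · refine Finset.sum_eq_zero fun k hk => ?_
    rw [Finset.mem_range] at hk
    rw [H_H_ne k l (by omega), smul_zeroC]

lemma Op_Op (hn : 1 ≤ n) (N : ℕ) (a b : ℕ → ℝ) (g : C(K n, ℂ)) :
    Op n N a (Op n N b g) = Op n N (fun k => a k * b k) g := by
  rw [Op_apply, Op_apply N (fun k => a k * b k)]
  refine Finset.sum_congr rfl fun k hk => ?_
  rw [H_Op hn, if_pos (Finset.mem_range.mp hk), smul_smul]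
  push_cast; rfl

/-! ### density of polynomials -/

/-- dilation of points -/
def dilPt (r : ℝ) (hr0 : 0 ≤ r) (hr : r ≤ 1) (z : K n) : K n :=
  ⟨(r : ℂ) • (z : E n), by
    have hz : ‖(z : E n)‖ ≤ 1 := mem_closedBall_zero_iff.mp z.2
    rw [mem_closedBall_zero_iff, norm_smul, Complex.norm_real, Real.norm_of_nonneg hr0]
    nlinarith [norm_nonneg (z : E n)]⟩

lemma continuous_dilPt (r : ℝ) (hr0 : 0 ≤ r) (hr : r ≤ 1) :
    Continuous (dilPt (n := n) r hr0 hr) := by
  unfold dilPt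
  fun_prop

/-- dilation -/
noncomputable def dil (f : C(K n, ℂ)) (r : ℝ) (hr0 : 0 ≤ r) (hr : r ≤ 1) : C(K n, ℂ) :=
  ⟨fun z => f (dilPt r hr0 hr z), f.continuous.comp (continuous_dilPt r hr0 hr)⟩

lemma dil_apply (f : C(K n, ℂ)) (r : ℝ) (hr0 : 0 ≤ r) (hr : r ≤ 1) (z : K n) :
    dil f r hr0 hr z = ext f ((r : ℂ) • (z : E n)) := by
  rw [ext_apply]; rfl

lemma dil_close (f : C(K n, ℂ)) (ε : ℝ) (hε : 0 < ε) :
    ∃ r : ℝ, ∃ (hr0 : 0 ≤ r) (hr : r ≤ 1), r < 1 ∧ ‖dil f r hr0 hr - f‖ ≤ ε := by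
  have huc : UniformContinuous f := CompactSpace.uniformContinuous_of_continuous f.continuous
  obtain ⟨δ, hδ, h⟩ := Metric.uniformContinuous_iff.mp huc ε hε
  set r : ℝ := 1 - min (δ / 2) (1 / 2) with hr
  have hm0 : 0 < min (δ / 2) (1 / 2) := by positivity
  have hm1 : min (δ / 2) (1 / 2) ≤ 1 / 2 := min_le_right _ _
  have hm2 : min (δ / 2) (1 / 2) ≤ δ / 2 := min_le_left _ _
  refine ⟨r, by linarith, by linarith, by linarith, ?_⟩
  rw [ContinuousMap.norm_le _ hε.le]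
  intro z
  rw [ContinuousMap.sub_apply]
  have hz : ‖(z : E n)‖ ≤ 1 := mem_closedBall_zero_iff.mp z.2
  have h1 := @h ⟨(r : ℂ) • (z : E n), by
    rw [mem_closedBall_zero_iff, norm_smul, Complex.norm_real,
      Real.norm_of_nonneg (by linarith : (0:ℝ) ≤ r)]
    nlinarith [norm_nonneg (z : E n)]⟩ z (by
      rw [Subtype.dist_eq, dist_eq_norm]
      have h2 : (r : ℂ) • (z : E n) - (z : E n) = ((r - 1 : ℝ) : ℂ) • (z : E n) := by
        push_cast
        rw [sub_smul, one_smul]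
      rw [h2, norm_smul, Complex.norm_real, Real.norm_eq_abs, abs_of_nonpos (by linarith)]
      nlinarith [norm_nonneg (z : E n)])
  rw [dist_eq_norm] at h1
  exact h1.le

lemma norm_H_le (k : ℕ) (g : C(K n, ℂ)) : ‖H n k g‖ ≤ (Nat.choose (n + k) n : ℝ) * ‖g‖ := by
  rw [ContinuousMap.norm_le _ (by positivity)]
  intro z
  have hz : ‖(z : E n)‖ ≤ 1 := mem_closedBall_zero_iff.mp z.2
  rw [H_apply, norm_mul, Complex.norm_real, Real.norm_of_nonneg (by
    unfold cc; have := vB_pos n; positivity)]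
  have h1 : ‖∫ w in ball (0 : E n) 1, (inner ℂ w (z : E n) : ℂ) ^ k * ext g w‖
      ≤ ‖g‖ * (volume (ball (0 : E n) 1)).toReal := by
    apply norm_setIntegral_le_of_norm_le_const measure_ball_lt_top
    intro w hw
    have hw1 : ‖w‖ ≤ 1 := (mem_ball_zero_iff.mp hw).le
    rw [norm_mul, norm_pow]
    have h2 : ‖(inner ℂ w (z : E n) : ℂ)‖ ≤ 1 :=
      (norm_inner_le_norm w (z : E n)).trans (by nlinarith [norm_nonneg w, norm_nonneg (z : E n)])
    have h3 : ‖(inner ℂ w (z : E n) : ℂ)‖ ^ k ≤ 1 := pow_le_one₀ (norm_nonneg _) h2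
    have h4 := norm_ext_le g w
    nlinarith [norm_nonneg (ext g w), pow_nonneg (norm_nonneg (inner ℂ w (z : E n) : ℂ)) k]
  have hv := vB_pos n
  unfold cc
  calc (Nat.choose (n + k) n : ℝ) / vB n * _
      ≤ (Nat.choose (n + k) n : ℝ) / vB n * (‖g‖ * vB n) := by
        gcongr
        exact h1
    _ = (Nat.choose (n + k) n : ℝ) * ‖g‖ := by field_simp

lemma hasSum_dil (hn : 1 ≤ n) (f : C(K n, ℂ)) (hf : f ∈ ballAlg n) (r : ℝ) (hr0 : 0 ≤ r)
    (hr : r ≤ 1) (hr1 : r < 1) :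
    HasSum (fun k : ℕ => ((r ^ k : ℝ) : ℂ) • H n k f) (dil f r hr0 hr) := by
  have hsum : Summable (fun k : ℕ => ((r ^ k : ℝ) : ℂ) • H n k f) := by
    have h1 : Summable (fun k : ℕ => (Nat.choose (k + n) n : ℝ) * r ^ k) :=
      summable_choose_mul_geometric_of_norm_lt_one n (by
        rw [Real.norm_of_nonneg hr0]; exact hr1)
    refine Summable.of_norm_bounded (h1.mul_right ‖f‖) fun k => ?_
    rw [norm_smul, Complex.norm_real, Real.norm_of_nonneg (by positivity)]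
    have h2 := norm_H_le k f
    rw [add_comm n k] at h2
    calc r ^ k * ‖H n k f‖ ≤ r ^ k * ((Nat.choose (k + n) n : ℝ) * ‖f‖) := by gcongr
      _ = _ := by ring
  have h3 := hsum.hasSum
  convert h3 using 1
  ext z
  have h4 : HasSum (fun k : ℕ => (((r ^ k : ℝ) : ℂ) • H n k f) z)
      ((∑' k : ℕ, ((r ^ k : ℝ) : ℂ) • H n k f) z) :=
    ContinuousMap.hasSum_apply h3 z
  have h5 := H_expansion hn f hf z r (by
    rw [Complex.norm_real, Real.norm_of_nonneg hr0]; exact hr1)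
  rw [dil_apply]
  refine h5.unique ?_
  convert h4 using 1
  funext k
  rw [ContinuousMap.smul_apply, smul_eq_mul]
  push_cast; rfl

/-- polynomials are dense -/
lemma exists_poly (hn : 1 ≤ n) (f : C(K n, ℂ)) (hf : f ∈ ballAlg n) (ε : ℝ) (hε : 0 < ε) :
    ∃ (p : C(K n, ℂ)) (d : ℕ), p ∈ ballAlg n ∧ ‖p - f‖ ≤ ε ∧
      p = ∑ k ∈ Finset.range d, H n k p ∧ ∀ k, d ≤ k → H n k p = 0 := by
  obtain ⟨r, hr0, hr, hr1, h1⟩ := dil_close f (ε / 2) (by positivity)
  have h2 := (hasSum_dil hn f hf r hr0 hr hr1).tendsto_sum_nat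
  obtain ⟨d, hd⟩ := (Metric.tendsto_atTop.mp h2) (ε / 2) (by positivity)
  have hd := hd d le_rfl
  have hp : ∑ k ∈ Finset.range d, ((r ^ k : ℝ) : ℂ) • H n k f = Op n d (fun k => r ^ k) f := by
    rw [Op_apply]
  rw [hp, dist_eq_norm] at hd
  refine ⟨Op n d (fun k => r ^ k) f, d, Op_mem _ _ _, ?_, ?_, ?_⟩
  · calc ‖Op n d (fun k => r ^ k) f - f‖
        = ‖(Op n d (fun k => r ^ k) f - dil f r hr0 hr) + (dil f r hr0 hr - f)‖ := by
          congr 1; abel
      _ ≤ _ := norm_add_le _ _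
      _ ≤ ε := by linarith
  · conv_lhs => rw [Op_apply]
    refine Finset.sum_congr rfl fun k hk => ?_
    rw [H_Op hn, if_pos (Finset.mem_range.mp hk)]
  · intro k hk
    rw [H_Op hn, if_neg (by omega)]

/-! ### de la Vallee-Poussin sums -/

/-- de la Vallee-Poussin sum -/
noncomputable def VP (n R : ℕ) : C(K n, ℂ) →L[ℂ] C(K n, ℂ) := Op n (2 * R) (vp R)

lemma norm_VP_poly (hn : 1 ≤ n) (R : ℕ) (hR : 1 ≤ R) (f : C(K n, ℂ)) (d : ℕ)
    (hfd : f = ∑ k ∈ Finset.range d, H n k f) (hd : ∀ k, d ≤ k → H n k f = 0) :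
    ‖VP n R f‖ ≤ 3 * ‖f‖ := by
  rw [ContinuousMap.norm_le _ (by positivity)]
  intro z
  have h1 : VP n R f z = ∑ k ∈ Finset.range (max d (2 * R)), (vp R k : ℂ) * H n k f z := by
    unfold VP
    rw [← Op_mono (le_max_right d (2 * R)) (vp R) (fun k hk => Fejer.vp_big hR hk), Op_apply,
      ContinuousMap.sum_apply]
    rfl
  rw [h1]
  apply vp_bound R _ hR
  intro ζ hζ
  have hz : ‖(z : E n)‖ ≤ 1 := mem_closedBall_zero_iff.mp z.2
  have hz2 : ζ • (z : E n) ∈ closedBall (0 : E n) 1 := by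
    rw [mem_closedBall_zero_iff, norm_smul, hζ, one_mul]; exact hz
  have h2 : ∑ k ∈ Finset.range (max d (2 * R)), H n k f z * ζ ^ k = ext f (ζ • (z : E n)) := by
    have h3 : ∀ k, H n k f z * ζ ^ k = ext (H n k f) (ζ • (z : E n)) := by
      intro k
      have h4 : H n k f = H n k (H n k f) := (H_H_self hn k f).symm
      rw [h4, ext_H_smul k (H n k f) ζ z z.2 hz2, ext_coe, mul_comm, ← h4]
    simp only [h3]
    have h5 : ∑ k ∈ Finset.range (max d (2 * R)), H n k f = f := by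
      conv_rhs => rw [hfd]
      symm
      apply Finset.sum_subset (Finset.range_mono (le_max_left _ _))
      intro k _ hk
      rw [Finset.mem_range, not_lt] at hk
      exact hd k hk
    have h6 : ext f (ζ • (z : E n)) = ext (∑ k ∈ Finset.range (max d (2 * R)), H n k f)
        (ζ • (z : E n)) := by rw [h5]
    rw [h6, ext_apply _ _ hz2, ContinuousMap.sum_apply]
    refine Finset.sum_congr rfl fun k _ => ?_
    rw [ext_apply _ _ hz2]
  rw [h2]
  exact norm_ext_le f _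

lemma norm_VP_le (hn : 1 ≤ n) (R : ℕ) (hR : 1 ≤ R) (f : C(K n, ℂ)) (hf : f ∈ ballAlg n) :
    ‖VP n R f‖ ≤ 3 * ‖f‖ := by
  apply le_of_forall_pos_le_add
  intro ε hε
  obtain ⟨p, d, hp, h1, h2, h3⟩ := exists_poly hn f hf (ε / (‖VP n R‖ + 3)) (by positivity)
  have h4 := norm_VP_poly hn R hR p d h2 h3
  have h5 : ‖VP n R (p - f)‖ ≤ ‖VP n R‖ * (ε / (‖VP n R‖ + 3)) :=
    ((VP n R).le_opNorm _).trans (by gcongr)
  have h6 : ‖p‖ ≤ ‖f‖ + ε / (‖VP n R‖ + 3) := by
    calc ‖p‖ = ‖f + (p - f)‖ := by congr 1; abel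
      _ ≤ ‖f‖ + ‖p - f‖ := norm_add_le _ _
      _ ≤ _ := by linarith
  have h7 : VP n R f = VP n R p - VP n R (p - f) := by rw [map_sub]; abel
  calc ‖VP n R f‖ = ‖VP n R p - VP n R (p - f)‖ := by rw [← h7]
    _ ≤ ‖VP n R p‖ + ‖VP n R (p - f)‖ := norm_sub_le _ _
    _ ≤ 3 * (‖f‖ + ε / (‖VP n R‖ + 3)) + ‖VP n R‖ * (ε / (‖VP n R‖ + 3)) := by
      have := h4
      gcongr
      exact this.trans (by gcongr)
    _ = 3 * ‖f‖ + (‖VP n R‖ + 3) * (ε / (‖VP n R‖ + 3)) := by ring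
    _ = 3 * ‖f‖ + ε := by
      rw [mul_div_cancel₀]
      positivity

lemma VP_poly (R : ℕ) (p : C(K n, ℂ)) (d : ℕ) (hR : d ≤ R) (hR1 : 1 ≤ R)
    (h2 : p = ∑ k ∈ Finset.range d, H n k p) (h3 : ∀ k, d ≤ k → H n k p = 0) :
    VP n R p = p := by
  conv_rhs => rw [h2]
  unfold VP
  rw [Op_apply]
  symm
  have h4 : ∑ k ∈ Finset.range d, H n k p = ∑ k ∈ Finset.range d, (vp R k : ℂ) • H n k p := by
    refine Finset.sum_congr rfl fun k hk => ?_
    rw [Finset.mem_range] at hk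
    rw [Fejer.vp_one hR1 (by omega)]; simp
  rw [h4]
  apply Finset.sum_subset (Finset.range_mono (by omega))
  intro k _ hk
  rw [Finset.mem_range, not_lt] at hk
  rw [h3 k hk, smul_zeroC]

theorem VP_tendsto (hn : 1 ≤ n) (f : C(K n, ℂ)) (hf : f ∈ ballAlg n) :
    Tendsto (fun R => VP n R f) atTop (𝓝 f) := by
  rw [Metric.tendsto_atTop]
  intro ε hε
  obtain ⟨p, d, hp, h1, h2, h3⟩ := exists_poly hn f hf (ε / 8) (by positivity)
  refine ⟨d + 1, fun R hR => ?_⟩
  have hR1 : 1 ≤ R := by omega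
  rw [dist_eq_norm]
  have h4 := VP_poly R p d (by omega) hR1 h2 h3
  have h5 := norm_VP_le hn R hR1 (f - p) (Submodule.sub_mem _ hf hp)
  have h6 : ‖f - p‖ ≤ ε / 8 := by rw [norm_sub_rev]; exact h1
  calc ‖VP n R f - f‖ = ‖VP n R (f - p) + (p - f)‖ := by
        rw [map_sub, h4]; congr 1; abel
    _ ≤ ‖VP n R (f - p)‖ + ‖p - f‖ := norm_add_le _ _
    _ ≤ 3 * (ε / 8) + ε / 8 := by
      have := h5.trans (by gcongr : 3 * ‖f - p‖ ≤ 3 * (ε / 8))
      linarith
    _ < ε := by linarith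

/-! ### the dyadic blocks are bounded on all continuous functions -/

lemma choose_le (q n : ℕ) : Nat.choose (8 * q + n) n ≤ 8 ^ n * Nat.choose (n + q) n := by
  induction n with
  | zero => simp
  | succ n ih =>
    have h1 := Nat.add_one_mul_choose_eq (8 * q + n) n
    have h2 := Nat.add_one_mul_choose_eq (n + q) n
    have h3 : (8 * q + n).succ ≤ 8 * (n + q).succ := by
      simp only [Nat.succ_eq_add_one]; omega
    have h4 : Nat.choose (8 * q + n).succ n.succ * n.succ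
        ≤ (8 ^ (n + 1) * Nat.choose (n + q).succ n.succ) * n.succ := by
      calc Nat.choose (8 * q + n).succ n.succ * n.succ
          = (8 * q + n).succ * Nat.choose (8 * q + n) n := h1.symm
        _ ≤ (8 * (n + q).succ) * (8 ^ n * Nat.choose (n + q) n) := Nat.mul_le_mul h3 ih
        _ = 8 ^ (n + 1) * ((n + q).succ * Nat.choose (n + q) n) := by ring
        _ = 8 ^ (n + 1) * (Nat.choose (n + q).succ n.succ * n.succ) := by rw [h2]
        _ = _ := by ring
    have h5 := Nat.le_of_mul_le_mul_right h4 (Nat.succ_pos n)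
    have e1 : 8 * q + (n + 1) = (8 * q + n).succ := by simp only [Nat.succ_eq_add_one]; omega
    have e2 : n + 1 + q = (n + q).succ := by simp only [Nat.succ_eq_add_one]; omega
    rw [e1, e2]
    exact h5

lemma integral_comp_isometry_real (U : E n ≃ₗᵢ[ℂ] E n) (F : E n → ℝ) :
    ∫ w in ball (0 : E n) 1, F (U w) = ∫ w in ball (0 : E n) 1, F w := by
  have h := Slice.integral_comp_isometry U (fun w => (F w : ℂ))
  have h1 : (∫ w in ball (0 : E n) 1, ((F (U w) : ℝ) : ℂ))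
      = ((∫ w in ball (0 : E n) 1, F (U w) : ℝ) : ℂ) := integral_ofReal
  have h2 : (∫ w in ball (0 : E n) 1, ((F w : ℝ) : ℂ))
      = ((∫ w in ball (0 : E n) 1, F w : ℝ) : ℂ) := integral_ofReal
  rw [h1, h2] at h
  exact_mod_cast h

/-- the one-variable kernel -/
noncomputable def kap (n h : ℕ) (l : ℂ) : ℂ :=
  ∑ k ∈ Finset.range (4 * h), ((vp (2 * h) k - vp h k : ℝ) : ℂ) * (Nat.choose (n + k) n : ℂ) * l ^ k

lemma continuous_kap (n h : ℕ) : Continuous (kap n h) := by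
  unfold kap
  fun_prop

/-- the block operator -/
noncomputable def Bk (n h : ℕ) : C(K n, ℂ) →L[ℂ] C(K n, ℂ) :=
  Op n (4 * h) (fun k => vp (2 * h) k - vp h k)

lemma Bk_apply (h : ℕ) (g : C(K n, ℂ)) (z : K n) :
    Bk n h g z = ((vB n)⁻¹ : ℝ) *
      ∫ w in ball (0 : E n) 1, kap n h (inner ℂ w (z : E n)) * ext g w := by
  unfold Bk
  rw [Op_apply, ContinuousMap.sum_apply]
  have h1 : ∀ w : E n, kap n h (inner ℂ w (z : E n)) * ext g w
      = ∑ k ∈ Finset.range (4 * h), (((vp (2 * h) k - vp h k : ℝ) : ℂ) * (Nat.choose (n + k) n : ℂ))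
        * ((inner ℂ w (z : E n) : ℂ) ^ k * ext g w) := by
    intro w
    unfold kap
    rw [Finset.sum_mul]
    refine Finset.sum_congr rfl fun k _ => ?_
    ring
  simp only [h1]
  rw [integral_finsetSum _ fun k _ => (integrable_mul g (fun w => (inner ℂ w (z : E n) : ℂ) ^ k)
    (by fun_prop)).const_mul _]
  rw [Finset.mul_sum]
  refine Finset.sum_congr rfl fun k _ => ?_
  rw [integral_const_mul, ContinuousMap.smul_apply, H_apply, smul_eq_mul]
  unfold cc
  push_cast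
  ring

lemma integral_kap_le (hn : 1 ≤ n) (q : ℕ) (hq : 1 ≤ q) (z : K n) :
    ∫ w in ball (0 : E n) 1, ‖kap n (2 * q) (inner ℂ w (z : E n))‖ ≤ 3 / 2 * 8 ^ n * vB n := by
  obtain ⟨M, hM, hker⟩ := kernel_bound n (2 * q) (by omega)
  have hM' : (0 : ℝ) < M := by exact_mod_cast hM
  have hz : ‖(z : E n)‖ ≤ 1 := mem_closedBall_zero_iff.mp z.2
  set J := ∫ w in ball (0 : E n) 1, ‖kap n (2 * q) (inner ℂ w (z : E n))‖ with hJ
  set ω : ℂ := Complex.exp (2 * Real.pi * Complex.I / M) with hω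
  have hω1 : ∀ a : ℕ, ‖ω ^ a‖ = 1 := fun a => by
    rw [norm_pow]
    have : ω = Complex.exp (((2 * Real.pi / M : ℝ) : ℂ) * Complex.I) := by
      rw [hω]; congr 1; push_cast; ring
    rw [this, Complex.norm_exp_ofReal_mul_I, one_pow]
  have hcont : ∀ a : ℕ, Continuous fun w : E n => ‖kap n (2 * q) (ω ^ a * inner ℂ w (z : E n))‖ :=
    fun a => ((continuous_kap n (2 * q)).comp (by fun_prop)).norm
  have hint : ∀ a : ℕ, Integrable (fun w : E n => ‖kap n (2 * q) (ω ^ a * inner ℂ w (z : E n))‖)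
      (volume.restrict (ball (0 : E n) 1)) := by
    intro a
    have h1 : IntegrableOn (fun w : E n => ‖kap n (2 * q) (ω ^ a * inner ℂ w (z : E n))‖)
        (closedBall (0 : E n) 1) volume :=
      (hcont a).continuousOn.integrableOn_compact (isCompact_closedBall _ _)
    exact h1.mono_set ball_subset_closedBall
  have hrot : ∀ a : ℕ, ∫ w in ball (0 : E n) 1, ‖kap n (2 * q) (ω ^ a * inner ℂ w (z : E n))‖ = J := by
    intro a
    have hc : ‖(starRingEnd ℂ) (ω ^ a)‖ = 1 := by rw [RCLike.norm_conj, hω1]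
    have h1 := integral_comp_isometry_real (Slice.rotAll n _ hc)
      (fun w => ‖kap n (2 * q) (inner ℂ w (z : E n))‖)
    simp only [Slice.rotAll_apply, inner_smul_left, RingHomCompTriple.comp_apply,
      RingHom.id_apply] at h1
    exact h1
  have hsum : (M : ℝ) * J = ∫ w in ball (0 : E n) 1,
      ∑ a ∈ Finset.range M, ‖kap n (2 * q) (ω ^ a * inner ℂ w (z : E n))‖ := by
    rw [integral_finsetSum _ fun a _ => hint a]
    simp only [hrot, Finset.sum_const, Finset.card_range, nsmul_eq_mul]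
  have hbound : (M : ℝ) * J ≤ M * (3 / 2 * (Nat.choose (4 * (2 * q) + n) n : ℝ) *
      ∫ w in ball (0 : E n) 1, ‖(inner ℂ w (z : E n) : ℂ)‖ ^ (2 * q)) := by
    rw [hsum, ← integral_const_mul, ← integral_const_mul]
    apply setIntegral_mono_on
    · exact integrable_finsetSum _ fun a _ => hint a
    · have h1 : IntegrableOn (fun w : E n => (M : ℝ) * (3 / 2 * (Nat.choose (4 * (2 * q) + n) n : ℝ)
          * ‖(inner ℂ w (z : E n) : ℂ)‖ ^ (2 * q))) (closedBall (0 : E n) 1) volume := by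
        apply ContinuousOn.integrableOn_compact (isCompact_closedBall _ _)
        apply Continuous.continuousOn
        fun_prop
      exact h1.mono_set ball_subset_closedBall
    · exact measurableSet_ball
    · intro w hw
      have hw1 : ‖w‖ ≤ 1 := (mem_ball_zero_iff.mp hw).le
      have h2 : ‖(inner ℂ w (z : E n) : ℂ)‖ ≤ 1 :=
        (norm_inner_le_norm w (z : E n)).trans
          (by nlinarith [norm_nonneg w, norm_nonneg (z : E n)])
      have h3 := hker (inner ℂ w (z : E n)) h2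
      have h4 : (1 / (M : ℝ)) * ∑ a ∈ Finset.range M,
          ‖kap n (2 * q) (ω ^ a * inner ℂ w (z : E n))‖
          ≤ 3 / 2 * (Nat.choose (4 * (2 * q) + n) n : ℝ)
            * ‖(inner ℂ w (z : E n) : ℂ)‖ ^ (2 * q) := h3
      rw [one_div, inv_mul_le_iff₀ hM'] at h4
      exact h4
  have hmom := moment n q hn (z : E n)
  have hpow : ‖(z : E n)‖ ^ (2 * q) ≤ 1 := pow_le_one₀ (norm_nonneg _) hz
  have hch : (0 : ℝ) < (Nat.choose (n + q) n : ℝ) := by
    exact_mod_cast Nat.choose_pos (by omega)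
  have hv := vB_pos n
  have hmom2 : ∫ w in ball (0 : E n) 1, ‖(inner ℂ w (z : E n) : ℂ)‖ ^ (2 * q)
      ≤ vB n / (Nat.choose (n + q) n : ℝ) := by
    rw [hmom]
    apply div_le_div_of_nonneg_right _ hch.le
    have : (volume (ball (0 : E n) 1)).toReal = vB n := rfl
    rw [this]
    nlinarith
  have hcl : (Nat.choose (4 * (2 * q) + n) n : ℝ) ≤ 8 ^ n * (Nat.choose (n + q) n : ℝ) := by
    have := choose_le q n
    have e : 4 * (2 * q) + n = 8 * q + n := by ring
    rw [e]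
    exact_mod_cast this
  have hJ1 := le_of_mul_le_mul_left hbound hM'
  calc J ≤ _ := hJ1
    _ ≤ 3 / 2 * (8 ^ n * (Nat.choose (n + q) n : ℝ)) * (vB n / (Nat.choose (n + q) n : ℝ)) := by
      gcongr
    _ = 3 / 2 * 8 ^ n * vB n := by field_simp

theorem norm_Bk_le (hn : 1 ≤ n) (q : ℕ) (hq : 1 ≤ q) (g : C(K n, ℂ)) :
    ‖Bk n (2 * q) g‖ ≤ 3 / 2 * 8 ^ n * ‖g‖ := by
  rw [ContinuousMap.norm_le _ (by positivity)]
  intro z
  have hv := vB_pos n
  rw [Bk_apply, norm_mul, Complex.norm_real, Real.norm_of_nonneg (by positivity)]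
  have h1 : ‖∫ w in ball (0 : E n) 1, kap n (2 * q) (inner ℂ w (z : E n)) * ext g w‖
      ≤ ∫ w in ball (0 : E n) 1, ‖kap n (2 * q) (inner ℂ w (z : E n))‖ * ‖g‖ := by
    apply norm_integral_le_of_norm_le
    · have h2 : IntegrableOn (fun w : E n => ‖kap n (2 * q) (inner ℂ w (z : E n))‖ * ‖g‖)
          (closedBall (0 : E n) 1) volume := by
        apply ContinuousOn.integrableOn_compact (isCompact_closedBall _ _)
        apply Continuous.continuousOn
        have := continuous_kap n (2 * q)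
        exact ((this.comp (by fun_prop)).norm).mul continuous_const
      exact h2.mono_set ball_subset_closedBall
    · refine Filter.Eventually.of_forall fun w => ?_
      rw [norm_mul]
      gcongr
      exact norm_ext_le g w
  rw [integral_mul_const] at h1
  have h2 := integral_kap_le hn q hq z
  calc (vB n)⁻¹ * _ ≤ (vB n)⁻¹ * ((3 / 2 * 8 ^ n * vB n) * ‖g‖) := by
        gcongr
        exact h1.trans (by gcongr)
    _ = 3 / 2 * 8 ^ n * ‖g‖ := by field_simp

end Pool.Agent.H69.Ball
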